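import Pool.Agent.U120.DK.Ar

/-!
# The law of the Selmer groups of `√-3`, the primes from arbitrary sets
-/

set_option autoImplicit false

open scoped Classical

namespace Pool.Agent.U120.DK

open Finset NumberField
open Pool.Agent.Y692.QS (Ei w nr toC)
open Pool.Agent.Y715.T.Rec (cs)
open Pool.Agent.Y715.T.RecG (Pq)
open Pool.Agent.Y699.E (nrm nrm_mul nrm_eq' nrm_cast nrm_prod)
open Pool.Agent.Y696.CTK (parts ED)
open Pool.Agent.XL6 (SelK KerV)
open Pool.Agent.R419.KF (ClsC ClsKC)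
open Pool.Agent.Y703.XL (cr)

section field
variable {K : Type} [Field K] [NumberField K]

/-- the deviation of a tuple -/
noncomputable def dK {k : ℕ} (j : Ei ≃+* 𝓞 K) (Φ : (Fin k → F) → (Fin k → Fin k → F) → Prop)
    (π : Fin k → 𝓞 K) : ℝ :=
  (if Φ (fun i => rs (π i)) (sy fun i => j.symm (π i)) then 1 else 0) - PF Φ fun i => rs (π i)

/-- **the law of a property of the symbols, for boxes, over `K`** -/
theorem boxK (j : Ei ≃+* 𝓞 K) (hj : ∀ z : Ei, Algebra.norm ℤ (j z) = nr z) {k X s : ℕ} (hk : 1 ≤ k)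
    (hX : 1 ≤ X) (hs : 1 ≤ s) (C : Fin k → Finset (𝓞 K))
    (hC : ∀ i, ∀ π ∈ C i, Pm π ∧ Algebra.norm ℤ π ≤ X) (hCs : ∀ i, (C i).card ≤ s)
    (Φ : (Fin k → F) → (Fin k → Fin k → F) → Prop) :
    |∑ π ∈ (Fintype.piFinset C).filter Function.Injective, dK j Φ π| ≤ er k X s := by
  have hC' : ∀ i, ∀ p ∈ (C i).image j.symm, Pq p ∧ nrm p ≤ X := by
    intro i p hp
    obtain ⟨π, hπ, rfl⟩ := Finset.mem_image.1 hp
    obtain ⟨h1, h2⟩ := hC i π hπ
    obtain ⟨z, rfl⟩ := j.surjective π
    rw [RingEquiv.symm_apply_apply]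
    refine ⟨(Pm_iff j z).1 h1, ?_⟩
    rw [hj, ← nrm_cast] at h2
    exact_mod_cast h2
  have h := box hk hX hs (fun i => (C i).image j.symm) hC'
    (fun i => Finset.card_image_le.trans (hCs i)) Φ
  refine (le_of_eq ?_).trans h
  congr 1
  refine Finset.sum_nbij' (fun π i => j.symm (π i)) (fun p i => j (p i)) ?_ ?_ ?_ ?_ ?_
  · intro π hπ
    rw [Finset.mem_filter, Fintype.mem_piFinset] at hπ ⊢
    exact ⟨fun i => Finset.mem_image_of_mem _ (hπ.1 i), fun a b hab => hπ.2 (j.symm.injective hab)⟩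
  · intro p hp
    rw [Finset.mem_filter, Fintype.mem_piFinset] at hp ⊢
    refine ⟨fun i => ?_, fun a b hab => hp.2 (j.injective hab)⟩
    obtain ⟨π, hπ, h1⟩ := Finset.mem_image.1 (hp.1 i)
    rw [← h1, RingEquiv.apply_symm_apply]
    exact hπ
  · intro π _
    funext i
    exact j.apply_symm_apply _
  · intro p _
    funext i
    exact j.symm_apply_apply _
  · intro π hπ
    rw [Finset.mem_filter, Fintype.mem_piFinset] at hπ
    unfold dK dv
    have e1 : (fun i => rs (π i)) = fun i => lam (j.symm (π i)) := by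
      funext i
      have h1 := hC' i (j.symm (π i)) (Finset.mem_image_of_mem _ (hπ.1 i))
      rw [← rs_eq j hj h1.1, RingEquiv.apply_symm_apply]
    rw [e1]

end field

section model
variable {k : ℕ}

/-- the numbers of solutions are powers of three -/
theorem nS_pow {e : Fin k → F} (he : ∀ i, e i ≠ 0) (hk : 1 ≤ k) {a : Matrix (Fin k) (Fin k) F}
    (ha : a.IsSymm) (h0 : ∀ i, a i i = 0) : ∃ r, r < k ∧ nS e a = 3 ^ (r + 1) := by
  obtain ⟨n, rfl⟩ : ∃ n, k = n + 1 := ⟨k - 1, by omega⟩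
  rw [nS_red he ha h0]
  have h1 : Nat.card {w : Fin n → F // (red e a).mulVec w = 0} =
      Nat.card (LinearMap.ker (red e a).mulVecLin) :=
    Nat.card_congr (Equiv.subtypeEquivRight fun w => by
      rw [LinearMap.mem_ker, Matrix.mulVecLin_apply])
  have h2 : Nat.card (LinearMap.ker (red e a).mulVecLin) =
      3 ^ Module.finrank F (LinearMap.ker (red e a).mulVecLin) := by
    rw [Module.natCard_eq_pow_finrank (K := F), Nat.card_zmod]
  have h3 : Module.finrank F (LinearMap.ker (red e a).mulVecLin) ≤ n := by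
    refine (Submodule.finrank_le _).trans (le_of_eq ?_)
    rw [Module.finrank_fintype_fun_eq_card, Fintype.card_fin]
  refine ⟨Module.finrank F (LinearMap.ker (red e a).mulVecLin), by omega, ?_⟩
  rw [h1, h2, pow_succ, mul_comm]

/-- the property: in the class and with `3 ^ (r + 1)` solutions, `r ∈ R` -/
def PhR (e : Fin k → F) (R : Finset ℕ) (t : Fin k → F) (a : Fin k → Fin k → F) : Prop :=
  ∑ i, e i * t i ≠ 0 ∧ ∃ r ∈ R, nS e a = 3 ^ (r + 1)

/-- its probability -/
theorem PF_R {e : Fin k → F} (he : ∀ i, e i ≠ 0) (hk : 1 ≤ k) (R : Finset ℕ) (t : Fin k → F) :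
    PF (PhR e R) t = if ∑ i, e i * t i ≠ 0 then ∑ r ∈ R, cf (k - 1) r else 0 := by
  obtain ⟨n, rfl⟩ : ∃ n, k = n + 1 := ⟨k - 1, by omega⟩
  rw [PF_eq]
  by_cases h : ∑ i, e i * t i ≠ 0
  · rw [if_pos h]
    have h1 : Nat.card {a : Matrix (Fin (n + 1)) (Fin (n + 1)) F // a.IsSymm ∧ (∀ i, a i i = 0) ∧
        PhR e R t a} = Nat.card {a : Matrix (Fin (n + 1)) (Fin (n + 1)) F // a.IsSymm ∧
          (∀ i, a i i = 0) ∧ ∃ r ∈ R, nS e a = 3 ^ (r + 1)} :=
      Nat.card_congr (Equiv.subtypeEquivRight fun a => by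
        unfold PhR
        exact and_congr_right fun _ => and_congr_right fun _ => ⟨fun h2 => h2.2, fun h2 => ⟨h, h2⟩⟩)
    rw [h1, card_red he (fun m => ∃ r ∈ R, m = 3 ^ (r + 1))]
    have h2 : Nat.card {M : Matrix (Fin n) (Fin n) F // M.IsSymm ∧
        ∃ r ∈ R, 3 * Nat.card {w : Fin n → F // M.mulVec w = 0} = 3 ^ (r + 1)} =
        ∑ r ∈ R, Nat.card {M : Matrix (Fin n) (Fin n) F // M.IsSymm ∧
          Nat.card {w : Fin n → F // M.mulVec w = 0} = 3 ^ r} := by
      have e1 : ∀ P : Matrix (Fin n) (Fin n) F → Prop, Nat.card {M // P M} = (univ.filter P).card := by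
        intro P
        rw [Nat.card_eq_fintype_card, Fintype.card_subtype]
      simp only [e1]
      rw [← Finset.card_biUnion]
      · congr 1
        ext M
        simp only [Finset.mem_filter, Finset.mem_univ, true_and, Finset.mem_biUnion]
        constructor
        · rintro ⟨hM, r, hr, h3⟩
          refine ⟨r, hr, hM, ?_⟩
          rw [pow_succ'] at h3
          exact Nat.eq_of_mul_eq_mul_left (by norm_num) h3
        · rintro ⟨r, hr, hM, h3⟩
          exact ⟨hM, r, hr, by rw [h3, pow_succ']⟩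
      · intro r _ r' _ hne
        show Disjoint _ _
        rw [Finset.disjoint_left]
        intro M h3 h4
        simp only [Finset.mem_filter, Finset.mem_univ, true_and] at h3 h4
        have h5 := h3.2
        have h6 := h4.2
        rw [h5] at h6
        exact hne (Nat.pow_right_injective (le_refl 2 |>.trans (by norm_num)) h6)
    rw [h2]
    have h3 : (n + 1) * (n + 1 - 1) / 2 = n * (n + 1) / 2 := by
      rw [Nat.add_sub_cancel, mul_comm]
    rw [h3, Nat.add_sub_cancel]
    push_cast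
    rw [Finset.sum_div]
    refine Finset.sum_congr rfl fun r _ => ?_
    rw [← qS_cf]
    rfl
  · rw [if_neg h]
    have h1 : Nat.card {a : Matrix (Fin (n + 1)) (Fin (n + 1)) F // a.IsSymm ∧ (∀ i, a i i = 0) ∧
        PhR e R t a} = 0 := by
      rw [Nat.card_eq_zero]
      exact Or.inl ⟨fun a => h a.2.2.2.1⟩
    rw [h1, Nat.cast_zero, zero_div]

/-- the mean of the orders of the kernels -/
theorem mean_cf (n : ℕ) : ∑ r ∈ range (n + 1), cf n r = 1 ∧
    ∑ r ∈ range (n + 1), (3 : ℝ) ^ r * cf n r = 2 - (1 / 3 : ℝ) ^ n := by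
  have hrec : ∀ n r, ((3 : ℝ) ^ (r + 1) - 1) * cf (n + 1) (r + 1) =
      (1 - (1 / 3 : ℝ) ^ (n + 1)) * cf n r := fun n r => by
    rw [← qS_cf, ← qS_cf]
    exact qS_rec n r
  have hsum : ∀ n, ∑ r ∈ range (n + 1), cf n r = 1 := by
    intro n
    have h1 := PF_R (k := n + 1) (e := fun _ => 1) (fun _ => one_ne_zero) (by omega)
      (range (n + 1)) (Pi.single 0 1)
    have h2 : ∑ i : Fin (n + 1), (1 : F) * (Pi.single 0 1 : Fin (n + 1) → F) i ≠ 0 := by
      simp
    rw [if_pos h2, Nat.add_sub_cancel, PF_eq] at h1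
    rw [← h1]
    have h3 : Nat.card {a : Matrix (Fin (n + 1)) (Fin (n + 1)) F // a.IsSymm ∧ (∀ i, a i i = 0) ∧
        PhR (fun _ => 1) (range (n + 1)) (Pi.single 0 1) a} =
        Nat.card {a : Matrix (Fin (n + 1)) (Fin (n + 1)) F // a.IsSymm ∧ (∀ i, a i i = 0) ∧ True} :=
      Nat.card_congr (Equiv.subtypeEquivRight fun a => by
        refine and_congr_right fun ha => and_congr_right fun h0 => ⟨fun _ => trivial, fun _ => ⟨h2, ?_⟩⟩
        obtain ⟨r, hr, hr'⟩ := nS_pow (e := fun _ => (1 : F)) (fun _ => one_ne_zero) (by omega) ha h0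
        exact ⟨r, Finset.mem_range.2 hr, hr'⟩)
    rw [h3, card_sym (fun _ => True), Nat.card_congr (Equiv.subtypeUnivEquiv fun _ => trivial),
      Nat.card_fun, Nat.card_eq_fintype_card, Nat.card_eq_fintype_card, ZMod.card,
      Fintype.card_coe, prs_card]
    push_cast
    exact div_self (by positivity)
  refine ⟨hsum n, ?_⟩
  cases n with
  | zero =>
    have h0 := hsum 0
    rw [Finset.sum_range_one] at h0
    rw [Finset.sum_range_one, h0]
    norm_num
  | succ n =>
    have h1 : ∑ r ∈ range (n + 2), ((3 : ℝ) ^ r - 1) * cf (n + 1) r = 1 - (1 / 3 : ℝ) ^ (n + 1) := by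
      rw [Finset.sum_range_succ']
      have e1 : ∀ r ∈ range (n + 1), ((3 : ℝ) ^ (r + 1) - 1) * cf (n + 1) (r + 1) =
          (1 - (1 / 3 : ℝ) ^ (n + 1)) * cf n r := fun r _ => hrec n r
      rw [Finset.sum_congr rfl e1, ← Finset.mul_sum, hsum n]
      simp
    have h2 : ∑ r ∈ range (n + 2), (3 : ℝ) ^ r * cf (n + 1) r =
        ∑ r ∈ range (n + 2), ((3 : ℝ) ^ r - 1) * cf (n + 1) r + ∑ r ∈ range (n + 2), cf (n + 1) r := by
      rw [← Finset.sum_add_distrib]
      exact Finset.sum_congr rfl fun r _ => by ring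
    rw [h2, h1, hsum (n + 1)]
    ring

end model

section single
variable {K : Type} [Field K] [NumberField K]

/-- the product -/
noncomputable def Pd {k : ℕ} (π : Fin k → 𝓞 K) (e : Fin k → ℕ) : 𝓞 K := ∏ i, π i ^ e i

/-- the tuples -/
noncomputable def tup {k : ℕ} (C : Fin k → Finset (𝓞 K)) (e : Fin k → ℕ) (P : 𝓞 K → Prop) : ℕ :=
  ((Fintype.piFinset C).filter fun π => Function.Injective π ∧ ClsKC (Pd π e) ∧ P (Pd π e)).card

/-- the order of the Selmer group is `3 ^ (r + 1)` for an element `r` of `R` -/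
def InR (R : Finset ℕ) (D : 𝓞 K) : Prop := ∃ r ∈ R, (SelK (D : K)).ncard = 3 ^ (r + 1)

/-- **the law of the Selmer groups** -/
theorem lawR [IsCyclotomicExtension {3} ℚ K] {k X s : ℕ} (hk : 1 ≤ k)
    (hX : 1 ≤ X) (hs : 1 ≤ s) (C : Fin k → Finset (𝓞 K))
    (hC : ∀ i, ∀ π ∈ C i, Pm π ∧ Algebra.norm ℤ π ≤ X) (hCs : ∀ i, (C i).card ≤ s)
    {e : Fin k → ℕ} (he : ∀ i, e i = 1 ∨ e i = 2) (R : Finset ℕ) :
    |(tup C e (InR R) : ℝ) - (∑ r ∈ R, cf (k - 1) r) * tup C e fun _ => True| ≤ er k X s := by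
  obtain ⟨⟨j, hj⟩, -⟩ := Pool.Agent.Y455.CTK.jex K
  set e' : Fin k → F := fun i => (e i : F) with he'
  have he0 : ∀ i, e' i ≠ 0 := by
    intro i
    simp only [he']
    rcases he i with h | h <;> rw [h] <;> decide
  have hval : ∀ i, (e' i).val = e i := by
    intro i
    simp only [he']
    rcases he i with h | h <;> rw [h] <;> decide
  have h1 := boxK j hj hk hX hs C hC hCs (PhR e' R)
  have hpt : ∀ π ∈ (Fintype.piFinset C).filter Function.Injective, dK j (PhR e' R) π =
      (if ClsKC (Pd π e) ∧ InR R (Pd π e) then (1 : ℝ) else 0) -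
        (∑ r ∈ R, cf (k - 1) r) * (if ClsKC (Pd π e) ∧ True then 1 else 0) := by
    intro π hπ
    rw [Finset.mem_filter, Fintype.mem_piFinset] at hπ
    have hp : ∀ i, Pq (j.symm (π i)) := by
      intro i
      rw [← Pm_iff j, RingEquiv.apply_symm_apply]
      exact (hC i _ (hπ.1 i)).1
    have hi : Function.Injective fun i => j.symm (π i) := fun a b hab =>
      hπ.2 (j.symm.injective hab)
    obtain ⟨h2, h3⟩ := arith j hj hi hp e'
    have hD : j (De (fun i => j.symm (π i)) e') = Pd π e := by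
      unfold De Pd
      rw [map_prod]
      refine Finset.prod_congr rfl fun i _ => ?_
      rw [map_pow, RingEquiv.apply_symm_apply, hval]
    rw [hD] at h2 h3
    have e1 : (fun i => rs (π i)) = fun i => lam (j.symm (π i)) := by
      funext i
      rw [← rs_eq j hj (hp i), RingEquiv.apply_symm_apply]
    unfold dK
    rw [e1, PF_R he0 hk]
    by_cases hcl : ClsKC (Pd π e)
    · have h4 := h2.1 hcl
      have h5 : PhR e' R (fun i => lam (j.symm (π i))) (sy fun i => j.symm (π i)) ↔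
          ClsKC (Pd π e) ∧ InR R (Pd π e) := by
        unfold PhR InR
        rw [h3 hcl]
        exact ⟨fun h => ⟨hcl, h.2⟩, fun h => ⟨h4, h.2⟩⟩
      rw [if_pos h4, if_pos (show ClsKC (Pd π e) ∧ True from ⟨hcl, trivial⟩), mul_one]
      by_cases h6 : ClsKC (Pd π e) ∧ InR R (Pd π e)
      · rw [if_pos h6, if_pos (h5.2 h6)]
      · rw [if_neg h6, if_neg fun h => h6 (h5.1 h)]
    · have h4 : ¬ ∑ i, e' i * lam (j.symm (π i)) ≠ 0 := fun h => hcl (h2.2 h)
      rw [if_neg h4, if_neg (fun h : PhR e' R _ _ => h4 h.1), if_neg fun h : _ ∧ _ => hcl h.1,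
        if_neg fun h : _ ∧ _ => hcl h.1, mul_zero]
  rw [Finset.sum_congr rfl hpt, Finset.sum_sub_distrib, ← Finset.mul_sum, Finset.sum_boole,
    Finset.sum_boole, Finset.filter_filter, Finset.filter_filter] at h1
  unfold tup
  convert h1
  rfl

/-- the orders are at most `3 ^ k` -/
theorem order_lt [IsCyclotomicExtension {3} ℚ K] {k : ℕ} (hk : 1 ≤ k) {π : Fin k → 𝓞 K}
    (hπ : ∀ i, Pm (π i)) {e : Fin k → ℕ} (he : ∀ i, e i = 1 ∨ e i = 2) (hi : Function.Injective π)
    (hcl : ClsKC (Pd π e)) : ∃ r, r < k ∧ (SelK (Pd π e : K)).ncard = 3 ^ (r + 1) := by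
  obtain ⟨⟨j, hj⟩, -⟩ := Pool.Agent.Y455.CTK.jex K
  set e' : Fin k → F := fun i => (e i : F) with he'
  have he0 : ∀ i, e' i ≠ 0 := by
    intro i
    simp only [he']
    rcases he i with h | h <;> rw [h] <;> decide
  have hval : ∀ i, (e' i).val = e i := by
    intro i
    simp only [he']
    rcases he i with h | h <;> rw [h] <;> decide
  have hp : ∀ i, Pq (j.symm (π i)) := by
    intro i
    rw [← Pm_iff j, RingEquiv.apply_symm_apply]
    exact hπ i
  have hi' : Function.Injective fun i => j.symm (π i) := fun a b hab => hi (j.symm.injective hab)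
  have h3 := (arith j hj hi' hp e').2
  have hD : j (De (fun i => j.symm (π i)) e') = Pd π e := by
    unfold De Pd
    rw [map_prod]
    refine Finset.prod_congr rfl fun i _ => ?_
    rw [map_pow, RingEquiv.apply_symm_apply, hval]
  rw [hD] at h3
  rw [h3 hcl]
  refine nS_pow he0 hk (a := sy fun i => j.symm (π i)) ?_ fun i => if_pos rfl
  refine Matrix.IsSymm.ext fun a b => ?_
  unfold sy
  by_cases h : a = b
  · rw [h]
  · rw [if_neg h, if_neg fun h' => h h'.symm]
    exact Pool.Agent.Y688.XK.cs_symm (hp b) (hp a)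

end single

end Pool.Agent.U120.DK
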