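import Pool.Agent.U120.DK.Rank
import Pool.Agent.R419.KL.Cor

/-!
# The Selmer groups of the cubic twists by the products of the powers of given primes
-/

set_option autoImplicit false

open scoped Classical

namespace Pool.Agent.U120.DK

open Finset NumberField
open Pool.Agent.Y692.QS (Ei w nr toC)
open Pool.Agent.Y715.T.Rec (cs)
open Pool.Agent.Y715.T.RecG (Pq)
open Pool.Agent.Y699.E (nrm nrm_mul nrm_eq' nrm_cast nrm_prod)
open Pool.Agent.Y703.CT (Dt pD)
open Pool.Agent.Y696.CTK (parts ED)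
open Pool.Agent.XL6 (SelK KerV)
open Pool.Agent.R419.KF (ClsC ClsKC el cls_el ClW nrm_el clsC_iff)
open Pool.Agent.R419.KL (main_pi)

section ei

lemma nrm_mod {π : Ei} (h : Pq π) : nrm π % 3 = 1 := by
  obtain ⟨z, hz⟩ := h.three
  have h1 : π = 1 + 3 * z := by rw [← hz]; ring
  have r3 : (3 : Ei).re = 3 := by decide
  have i3 : (3 : Ei).im = 0 := by decide
  have r1 : (1 : Ei).re = 1 := by decide
  have i1 : (1 : Ei).im = 0 := by decide
  have h3 : (3 : Ei) * z = ⟨3 * z.re, 3 * z.im⟩ := by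
    refine QuadraticAlgebra.ext ?_ ?_
    · simp [r3, i3]
    · simp [r3, i3]
  have h2 : π.re = 1 + 3 * z.re ∧ π.im = 3 * z.im := by
    rw [h1, h3]
    constructor
    · simp [r1]
    · simp [i1]
  have h4 := nrm_eq' π
  rw [h2.1, h2.2] at h4
  have h5 : (nrm π : ℤ) = 1 + 3 * (2 * z.re + 3 * z.re ^ 2 - z.im - 3 * z.re * z.im + 3 * z.im ^ 2) := by
    rw [h4]
    ring
  omega

/-- the residue of a number `1` modulo `3` -/
def ls (n : ℕ) : F := (((n - 1) / 3 : ℕ) : F)

lemma ls_mul {m n : ℕ} (hm : m % 3 = 1) (hn : n % 3 = 1) :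
    m * n % 3 = 1 ∧ ls (m * n) = ls m + ls n := by
  obtain ⟨a, rfl⟩ : ∃ a, m = 1 + 3 * a := ⟨m / 3, by omega⟩
  obtain ⟨b, rfl⟩ : ∃ b, n = 1 + 3 * b := ⟨n / 3, by omega⟩
  have e : (1 + 3 * a) * (1 + 3 * b) = 1 + 3 * (a + b + 3 * (a * b)) := by ring
  refine ⟨by rw [e]; omega, ?_⟩
  unfold ls
  have e1 : ((1 + 3 * a) * (1 + 3 * b) - 1) / 3 = a + b + 3 * (a * b) := by rw [e]; omega
  have e2 : (1 + 3 * a - 1) / 3 = a := by omega
  have e3 : (1 + 3 * b - 1) / 3 = b := by omega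
  rw [e1, e2, e3]
  push_cast
  have h3 : (3 : F) = 0 := by decide
  rw [h3, zero_mul, add_zero]

lemma ls_pow {m : ℕ} (hm : m % 3 = 1) (c : ℕ) : m ^ c % 3 = 1 ∧ ls (m ^ c) = c * ls m := by
  induction c with
  | zero =>
    refine ⟨by norm_num, ?_⟩
    unfold ls
    norm_num
  | succ c ih =>
    obtain ⟨h1, h2⟩ := ls_mul ih.1 hm
    rw [pow_succ]
    refine ⟨h1, ?_⟩
    rw [h2, ih.2]
    push_cast
    ring

lemma ls_prod {ι : Type} (s : Finset ι) (f : ι → ℕ) (h : ∀ i ∈ s, f i % 3 = 1) :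
    (∏ i ∈ s, f i) % 3 = 1 ∧ ls (∏ i ∈ s, f i) = ∑ i ∈ s, ls (f i) := by
  induction s using Finset.induction_on with
  | empty =>
    rw [Finset.prod_empty, Finset.sum_empty]
    refine ⟨by norm_num, ?_⟩
    unfold ls
    norm_num
  | insert a s ha ih =>
    obtain ⟨h1, h2⟩ := ih fun i hi => h i (Finset.mem_insert_of_mem hi)
    obtain ⟨h3, h4⟩ := ls_mul (h a (Finset.mem_insert_self _ _)) h1
    rw [Finset.prod_insert ha, Finset.sum_insert ha]
    exact ⟨h3, by rw [h4, h2]⟩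

lemma ls_iff {n : ℕ} (hn : n % 3 = 1) : n % 9 = 1 ↔ ls n = 0 := by
  obtain ⟨a, rfl⟩ : ∃ a, n = 1 + 3 * a := ⟨n / 3, by omega⟩
  unfold ls
  have e2 : (1 + 3 * a - 1) / 3 = a := by omega
  rw [e2, ZMod.natCast_eq_zero_iff]
  omega

lemma lam_ls (π : Ei) : lam π = ls (nrm π) := rfl

variable {k : ℕ} {p : Fin k → Ei} {e : Fin k → F}

/-- the element -/
def De (p : Fin k → Ei) (e : Fin k → F) : Ei := ∏ i, p i ^ (e i).val

/-- the norm -/
lemma De_norm (hp : ∀ i, Pq (p i)) :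
    nrm (De p e) % 3 = 1 ∧ ls (nrm (De p e)) = ∑ i, e i * lam (p i) := by
  have h1 : nrm (De p e) = ∏ i, nrm (p i) ^ (e i).val := by
    unfold De
    rw [nrm_prod]
    refine Finset.prod_congr rfl fun i _ => ?_
    have h2 : ∀ c : ℕ, nrm (p i ^ c) = nrm (p i) ^ c := by
      intro c
      induction c with
      | zero => rw [pow_zero, pow_zero]; exact Pool.Agent.Y699.E.nrm_one
      | succ c ih => rw [pow_succ, pow_succ, nrm_mul, ih]
    exact h2 _
  obtain ⟨h2, h3⟩ := ls_prod univ (fun i => nrm (p i) ^ (e i).val)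
    fun i _ => (ls_pow (nrm_mod (hp i)) _).1
  rw [h1]
  refine ⟨h2, h3.trans (Finset.sum_congr rfl fun i _ => ?_)⟩
  rw [(ls_pow (nrm_mod (hp i)) _).2, ZMod.natCast_val, ZMod.cast_id', id, lam_ls]

/-- the element and the pairs of sets -/
lemma De_el (hi : Function.Injective p) :
    De p e = el ((univ.filter fun i => e i = 2).image p) ((univ.filter fun i => e i ≠ 0).image p) := by
  unfold Pool.Agent.R419.KF.el De
  rw [Finset.prod_image fun a _ b _ h => hi h, Finset.prod_image fun a _ b _ h => hi h,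
    Finset.prod_filter, Finset.prod_filter, ← Finset.prod_mul_distrib]
  refine Finset.prod_congr rfl fun i _ => ?_
  have h3 : e i = 0 ∨ e i = 1 ∨ e i = 2 := by
    generalize e i = x
    revert x
    decide
  rcases h3 with h | h | h
  · rw [h, if_neg (fun hh => hh rfl), if_neg (by decide), ZMod.val_zero, pow_zero, mul_one]
  · rw [h, if_pos (by decide), if_neg (by decide), mul_one]
    have : (1 : F).val = 1 := by decide
    rw [this, pow_one]
  · rw [h, if_pos (by decide), if_pos rfl]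
    have : (2 : F).val = 2 := by decide
    rw [this, pow_two]

/-- **the class** -/
theorem De_cls (hi : Function.Injective p) (hp : ∀ i, Pq (p i)) :
    ClsC (De p e) ↔ ∑ i, e i * lam (p i) ≠ 0 := by
  have hS : ∀ q ∈ (univ.filter fun i => e i ≠ 0).image p, Pq q := by
    intro q hq
    obtain ⟨i, -, rfl⟩ := Finset.mem_image.1 hq
    exact hp i
  have hM : (univ.filter fun i => e i = 2).image p ⊆ (univ.filter fun i => e i ≠ 0).image p := by
    refine Finset.image_subset_image fun i hi => ?_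
    rw [Finset.mem_filter] at hi ⊢
    refine ⟨hi.1, ?_⟩
    rw [hi.2]
    decide
  have h1 := cls_el hS hM
  rw [← De_el hi] at h1
  obtain ⟨h2, h3⟩ := De_norm (e := e) hp
  rw [h1, ← h3]
  unfold Pool.Agent.R419.KF.ClW
  rw [← nrm_el, ← De_el hi, Ne, ls_iff h2]
  exact ⟨fun h => h.2.2, fun h => ⟨hS, hM, h⟩⟩

/-- the element, as a product over the support -/
lemma De_pD : De p e = pD (fun i : {i // e i ≠ 0} => p i) (fun i : {i // e i ≠ 0} => e i) := by
  unfold De Pool.Agent.Y703.CT.pD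
  rw [← Finset.prod_subtype (univ.filter fun i => e i ≠ 0) (fun i => by simp)
    (fun i => p i ^ (e i).val), Finset.prod_filter]
  refine Finset.prod_congr rfl fun i _ => ?_
  by_cases h : e i = 0
  · rw [h, if_neg (fun hh => hh rfl), ZMod.val_zero, pow_zero]
  · rw [if_pos h]

lemma De_dt (hi : Function.Injective p) (hp : ∀ i, Pq (p i)) :
    Dt (fun i : {i // e i ≠ 0} => p i) (fun i : {i // e i ≠ 0} => e i) := by
  refine ⟨fun i => hp i, fun i j hij hd => hij ?_, fun i => i.2⟩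
  exact Subtype.ext (hi (Pool.Agent.Y699.E.eq_of_dvd (hp j) (hp i) hd).symm)

/-- the kernels -/
theorem nS_ker : nS e (sy p) =
    (KerV (fun i : {i // e i ≠ 0} => p i) (fun i : {i // e i ≠ 0} => e i)).ncard := by
  have hsum : ∀ (v : Fin k → F) (j : Fin k), ∑ i, e i * sy p j i * (v i - v j) =
      ∑ i : {i // e i ≠ 0}, e i * cs (p j) (p i) * (v i - v j) := by
    intro v j
    rw [← Finset.sum_subtype (univ.filter fun i => e i ≠ 0) (fun i => by simp)
      (fun i => e i * cs (p j) (p i) * (v i - v j)), Finset.sum_filter]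
    refine Finset.sum_congr rfl fun i _ => ?_
    by_cases h : e i = 0
    · rw [h, if_neg (fun hh => hh rfl), zero_mul, zero_mul]
    · rw [if_pos h]
      by_cases hji : j = i
      · rw [hji, sub_self, mul_zero, mul_zero]
      · unfold sy
        rw [if_neg hji]
  rw [← Nat.card_coe_set_eq]
  unfold nS
  refine Nat.card_congr
    { toFun := fun v => ⟨fun i => v.1 i, fun j => ?_⟩
      invFun := fun u => ⟨fun i => if h : e i ≠ 0 then u.1 ⟨i, h⟩ else 0, fun i hi => ?_, fun j hj => ?_⟩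
      left_inv := fun v => ?_
      right_inv := fun u => ?_ }
  · have h1 := v.2.2 j j.2
    rw [hsum] at h1
    exact h1
  · exact dif_neg fun h => h hi
  · rw [hsum]
    have h1 := u.2 ⟨j, hj⟩
    refine Eq.trans (Finset.sum_congr rfl fun i _ => ?_) h1
    rw [dif_pos i.2, dif_pos hj]
  · refine Subtype.ext (funext fun i => ?_)
    by_cases h : e i = 0
    · have h1 := v.2.1 i h
      show (if h : e i ≠ 0 then v.1 i else 0) = v.1 i
      rw [dif_neg fun hh => hh h, h1]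
    · exact dif_pos h
  · refine Subtype.ext (funext fun i => ?_)
    exact dif_pos i.2

end ei

section field
variable {K : Type} [Field K] [NumberField K]

/-- the primary primes -/
def Pm (π : 𝓞 K) : Prop := Prime π ∧ (3 : 𝓞 K) ∣ π - 1

/-- the residue of the norm -/
noncomputable def rs (π : 𝓞 K) : F := (((Algebra.norm ℤ π - 1) / 3 : ℤ) : F)

variable (j : Ei ≃+* 𝓞 K)

/-- **The Selmer groups of all the twists by products of powers of given primes.** -/
theorem arith (hj : ∀ z : Ei, Algebra.norm ℤ (j z) = nr z) {k : ℕ} {p : Fin k → Ei}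
    (hi : Function.Injective p) (hp : ∀ i, Pq (p i)) (e : Fin k → F) :
    (ClsKC (j (De p e)) ↔ ∑ i, e i * lam (p i) ≠ 0) ∧
    (ClsKC (j (De p e)) → (SelK (j (De p e) : K)).ncard = nS e (sy p)) := by
  have h1 : ClsKC (j (De p e)) ↔ ∑ i, e i * lam (p i) ≠ 0 := by
    rw [clsC_iff j hj, De_cls hi hp]
  refine ⟨h1, fun h2 => ?_⟩
  have hn : Nonempty {i // e i ≠ 0} := by
    by_contra hcon
    refine h1.1 h2 (Finset.sum_eq_zero fun i _ => ?_)
    have h3 : e i = 0 := by
      by_contra h4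
      exact hcon ⟨⟨i, h4⟩⟩
    rw [h3, zero_mul]
  have h9 : ¬ (9 : ℤ) ∣ nr (De p e) - 1 := ((clsC_iff j hj _).1 h2).2.2
  rw [nS_ker]
  rw [De_pD] at h9 ⊢
  exact (main_pi (K := K) parts (De_dt hi hp) h9 j).1

lemma Pm_iff (z : Ei) : Pm (j z) ↔ Pq z := by
  have e1 : (3 : 𝓞 K) ∣ j z - 1 ↔ (3 : Ei) ∣ z - 1 := by
    have : j z - 1 = j (z - 1) := by rw [map_sub, map_one]
    rw [this, ← map_ofNat j 3, map_dvd_iff j]
  unfold Pm
  rw [e1]
  constructor
  · rintro ⟨h1, h2⟩
    exact ⟨(MulEquiv.prime_iff (j : Ei ≃* 𝓞 K)).1 h1, h2⟩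
  · rintro ⟨h1, h2⟩
    exact ⟨(MulEquiv.prime_iff (j : Ei ≃* 𝓞 K)).2 h1, h2⟩

lemma rs_eq (hj : ∀ z : Ei, Algebra.norm ℤ (j z) = nr z) {z : Ei} (hz : Pq z) :
    rs (j z) = lam z := by
  unfold rs lam
  rw [hj, ← nrm_cast]
  have h1 := nrm_mod hz
  have h2 : (((nrm z : ℕ) : ℤ) - 1) / 3 = (((nrm z - 1) / 3 : ℕ) : ℤ) := by omega
  rw [h2]
  push_cast
  rfl

end field

end Pool.Agent.U120.DK
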