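import Pool.Agent.U120.DK.Fin

/-!
# All the twists by products of powers of given primes at once
-/

set_option autoImplicit false

open scoped Classical

namespace Pool.Agent.U120.DK

open Finset

section comb
variable {k : ℕ}

/-- the solutions of the system of `e` -/
def IsSol (e : Fin k → F) (a : Fin k → Fin k → F) (v : Fin k → F) : Prop :=
  (∀ i, e i = 0 → v i = 0) ∧ ∀ j, e j ≠ 0 → ∑ i, e i * a j i * (v i - v j) = 0

/-- only the trivial solutions -/
theorem nS_three {e : Fin k → F} (he : ∃ i, e i ≠ 0) (a : Fin k → Fin k → F) :
    nS e a = 3 ↔ ∀ v, IsSol e a v → ∀ i l, e i ≠ 0 → e l ≠ 0 → v i = v l := by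
  obtain ⟨i₀, hi₀⟩ := he
  set φ : F → {v : Fin k → F // (∀ i, e i = 0 → v i = 0) ∧
      ∀ j, e j ≠ 0 → ∑ i, e i * a j i * (v i - v j) = 0} := fun c =>
    ⟨fun i => if e i = 0 then 0 else c, fun i hi => if_pos hi, fun j hj =>
      Finset.sum_eq_zero fun i _ => by
        by_cases h : e i = 0
        · rw [h, zero_mul, zero_mul]
        · show e i * a j i * ((if e i = 0 then 0 else c) - (if e j = 0 then 0 else c)) = 0
          rw [if_neg h, if_neg hj, sub_self, mul_zero]⟩ with hφ
  have hinj : Function.Injective φ := by
    intro c d h
    have h1 := congrFun (congrArg Subtype.val h) i₀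
    simp only [hφ, if_neg hi₀] at h1
    exact h1
  constructor
  · intro h v hv i l hi hl
    have hfin : Finite {v : Fin k → F // (∀ i, e i = 0 → v i = 0) ∧
      ∀ j, e j ≠ 0 → ∑ i, e i * a j i * (v i - v j) = 0} := Subtype.finite
    have hsur : Function.Surjective φ :=
      ((Nat.bijective_iff_injective_and_card φ).2 ⟨hinj, by
        rw [Nat.card_zmod]
        exact h.symm⟩).2
    obtain ⟨c, hc⟩ := hsur ⟨v, hv⟩
    have h1 := congrFun (congrArg Subtype.val hc) i
    have h2 := congrFun (congrArg Subtype.val hc) l
    simp only [hφ, if_neg hi, if_neg hl] at h1 h2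
    rw [← h1, ← h2]
  · intro h
    have hsur : Function.Surjective φ := by
      intro v
      refine ⟨v.1 i₀, Subtype.ext (funext fun i => ?_)⟩
      simp only [hφ]
      by_cases hi : e i = 0
      · rw [if_pos hi, v.2.1 i hi]
      · rw [if_neg hi]
        exact h v.1 v.2 i₀ i hi₀ hi
    have h1 := Nat.card_congr (Equiv.ofBijective φ ⟨hinj, hsur⟩)
    rw [Nat.card_zmod] at h1
    exact h1.symm

/-- the matrices with only trivial solutions for all `e` of the class -/
def AllT (t : Fin k → F) (a : Fin k → Fin k → F) : Prop :=
  ∀ e : Fin k → F, ∑ i, e i * t i ≠ 0 → nS e a = 3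

lemma supp_ne {e t : Fin k → F} (h : ∑ i, e i * t i ≠ 0) : ∃ i, e i ≠ 0 := by
  by_contra hcon
  push Not at hcon
  exact h (Finset.sum_eq_zero fun i _ => by rw [hcon i, zero_mul])

lemma f3 {x : F} (h : x ≠ 0) : x * x = 1 := sq_one h

/-- **all the twists are trivial if and only if the symbols are `c t_i t_j`** -/
theorem allT_iff {t : Fin k → F} (ht : ∀ i, t i ≠ 0) {a : Fin k → Fin k → F}
    (ha : ∀ i l, a i l = a l i) (h0 : ∀ i, a i i = 0) :
    AllT t a ↔ ∃ c : F, c ≠ 0 ∧ ∀ i l, i ≠ l → a i l = c * (t i * t l) := by
  constructor
  · intro h
    -- two primes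
    have h2 : ∀ i l, i ≠ l → a i l ≠ 0 := by
      intro i l hil hz
      set e : Fin k → F := fun m => if m = i then t i else if m = l then t l else 0 with he
      have ei : e i = t i := if_pos rfl
      have el : e l = t l := by
        show (if l = i then t i else if l = l then t l else 0) = t l
        rw [if_neg (Ne.symm hil), if_pos rfl]
      have em : ∀ m, m ≠ i → m ≠ l → e m = 0 := fun m h1 h2 => by
        show (if m = i then t i else if m = l then t l else 0) = 0
        rw [if_neg h1, if_neg h2]
      have hs : ∑ m, e m * t m = t i * t i + t l * t l := by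
        rw [Finset.sum_eq_add i l hil (fun m _ hm => by rw [em m hm.1 hm.2, zero_mul])
          (fun hh => absurd (Finset.mem_univ _) hh) (fun hh => absurd (Finset.mem_univ _) hh), ei, el]
      have hs2 : ∑ m, e m * t m ≠ 0 := by
        rw [hs, f3 (ht i), f3 (ht l)]
        decide
      have h3 := (nS_three (supp_ne hs2) a).1 (h e hs2)
        (fun m => if m = l then 1 else 0) ⟨fun m hm => ?_, fun j hj => ?_⟩ i l
        (by rw [ei]; exact ht i) (by rw [el]; exact ht l)
      · change (if i = l then (1 : F) else 0) = (if l = l then 1 else 0) at h3
        rw [if_neg hil, if_pos rfl] at h3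
        exact zero_ne_one h3
      · refine if_neg fun hml => ?_
        rw [hml, el] at hm
        exact ht l hm
      · refine Finset.sum_eq_zero fun m _ => ?_
        by_cases hji : j = i
        · subst hji
          by_cases hml : m = l
          · rw [hml, hz, mul_zero, zero_mul]
          · by_cases hmj : m = j
            · rw [hmj, h0, mul_zero, zero_mul]
            · rw [em m hmj hml, zero_mul, zero_mul]
        · by_cases hjl : j = l
          · subst hjl
            by_cases hmi : m = i
            · rw [hmi, ha, hz, mul_zero, zero_mul]
            · by_cases hmj : m = j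
              · rw [hmj, h0, mul_zero, zero_mul]
              · rw [em m hmi hmj, zero_mul, zero_mul]
          · exact absurd (em j hji hjl) hj
    -- three primes
    have h3 : ∀ i l m, i ≠ l → i ≠ m → l ≠ m →
        a i l * (t i * t l) = a i m * (t i * t m) := by
      intro i l m hil him hlm
      by_contra hne
      -- the products
      set x := a l m * (t l * t m) with hx
      set y := a i m * (t i * t m) with hy
      set z := a i l * (t i * t l) with hz
      have hx0 : x ≠ 0 := mul_ne_zero (h2 l m hlm) (mul_ne_zero (ht l) (ht m))
      have hy0 : y ≠ 0 := mul_ne_zero (h2 i m him) (mul_ne_zero (ht i) (ht m))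
      have hz0 : z ≠ 0 := mul_ne_zero (h2 i l hil) (mul_ne_zero (ht i) (ht l))
      set e : Fin k → F := fun n => if n = i then x * t i else if n = l then y * t l else
        if n = m then z * t m else 0 with he
      have ei : e i = x * t i := if_pos rfl
      have el : e l = y * t l := by
        show (if l = i then x * t i else if l = l then y * t l else if l = m then z * t m else 0) = _
        rw [if_neg (Ne.symm hil), if_pos rfl]
      have em : e m = z * t m := by
        show (if m = i then x * t i else if m = l then y * t l else if m = m then z * t m else 0) = _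
        rw [if_neg (Ne.symm him), if_neg (Ne.symm hlm), if_pos rfl]
      have en : ∀ n, n ≠ i → n ≠ l → n ≠ m → e n = 0 := fun n h1 h2 h3 => by
        show (if n = i then x * t i else if n = l then y * t l else if n = m then z * t m else 0) = _
        rw [if_neg h1, if_neg h2, if_neg h3]
      have sum3 : ∀ f : Fin k → F, (∀ n, n ≠ i → n ≠ l → n ≠ m → f n = 0) →
          ∑ n, f n = f i + f l + f m := by
        intro f hf
        have h4 : ∑ n, f n = ∑ n ∈ ({i, l, m} : Finset (Fin k)), f n := by
          symm
          refine Finset.sum_subset (Finset.subset_univ _) fun n _ hn => ?_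
          simp only [Finset.mem_insert, Finset.mem_singleton, not_or] at hn
          exact hf n hn.1 hn.2.1 hn.2.2
        rw [h4, Finset.sum_insert (by
          simp only [Finset.mem_insert, Finset.mem_singleton, not_or]
          exact ⟨hil, him⟩), Finset.sum_insert (by
          simp only [Finset.mem_singleton]
          exact hlm), Finset.sum_singleton]
        ring
      have hs : ∑ n, e n * t n = x + y + z := by
        rw [sum3 _ fun n h1 h2 h3 => by rw [en n h1 h2 h3, zero_mul], ei, el, em]
        have e1 := f3 (ht i)
        have e2 := f3 (ht l)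
        have e3 := f3 (ht m)
        linear_combination x * e1 + y * e2 + z * e3
      have hs2 : ∑ n, e n * t n ≠ 0 := by
        rw [hs]
        have key : ∀ x y z : F, x ≠ 0 → y ≠ 0 → z ≠ 0 → z ≠ y → x + y + z ≠ 0 := by decide
        exact key x y z hx0 hy0 hz0 hne
      have hei : e i ≠ 0 := by rw [ei]; exact mul_ne_zero hx0 (ht i)
      have hel : e l ≠ 0 := by rw [el]; exact mul_ne_zero hy0 (ht l)
      -- the weights are equal
      have wil : e i * e l * a i l = x * y * z := by
        rw [ei, el, hz]
        ring
      have wim : e i * e m * a i m = x * y * z := by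
        rw [ei, em, hy]
        ring
      have wlm : e l * e m * a l m = x * y * z := by
        rw [el, em, hx]
        ring
      have h4 := (nS_three (supp_ne hs2) a).1 (h e hs2)
        (fun n => if n = l then 1 else if n = m then 2 else 0) ⟨fun n hn => ?_, fun j hj => ?_⟩ i l
        hei hel
      · change (if i = l then (1 : F) else if i = m then 2 else 0) =
          (if l = l then 1 else if l = m then 2 else 0) at h4
        rw [if_neg hil, if_neg him, if_pos rfl] at h4
        exact zero_ne_one h4
      · by_cases hnl : n = l
        · rw [hnl] at hn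
          exact absurd hn hel
        · by_cases hnm : n = m
          · rw [hnm, em] at hn
            exact absurd hn (mul_ne_zero hz0 (ht m))
          · simp only
            rw [if_neg hnl, if_neg hnm]
      · set v : Fin k → F := fun n => if n = l then 1 else if n = m then 2 else 0 with hv
        have vi : v i = 0 := by
          show (if i = l then (1 : F) else if i = m then 2 else 0) = 0
          rw [if_neg hil, if_neg him]
        have vl : v l = 1 := by
          show (if l = l then (1 : F) else if l = m then 2 else 0) = 1
          rw [if_pos rfl]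
        have vm : v m = 2 := by
          show (if m = l then (1 : F) else if m = m then 2 else 0) = 2
          rw [if_neg (Ne.symm hlm), if_pos rfl]
        have h5 : e j * ∑ n, e n * a j n * (v n - v j) = 0 := by
          rw [sum3 _ fun n h1 h2 h3 => by rw [en n h1 h2 h3, zero_mul, zero_mul]]
          have t3 : (3 : F) = 0 := by decide
          by_cases hji : j = i
          · subst hji
            rw [vi, vl, vm, h0]
            linear_combination wil + 2 * wim + (x * y * z) * t3
          · by_cases hjl : j = l
            · subst hjl
              rw [vi, vl, vm, h0, ha j i]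
              linear_combination (-1) * wil + wlm
            · by_cases hjm : j = m
              · subst hjm
                rw [vi, vl, vm, h0, ha j i, ha j l]
                linear_combination (-2) * wim - wlm - (x * y * z) * t3
              · exact absurd (en j hji hjl hjm) hj
        exact (mul_eq_zero.1 h5).resolve_left hj
    -- the constant
    by_cases hk : ∃ i l : Fin k, i ≠ l
    · obtain ⟨i₀, l₀, h₀⟩ := hk
      have key : ∀ i l, i ≠ l → a i l * (t i * t l) = a i₀ l₀ * (t i₀ * t l₀) := by
        intro i l hil
        have hsym : ∀ i l, a i l * (t i * t l) = a l i * (t l * t i) := fun i l => by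
          rw [ha i l]
          ring
        by_cases h4 : i = i₀
        · subst h4
          by_cases h5 : l = l₀
          · rw [h5]
          · exact h3 i l l₀ hil h₀ h5
        · by_cases h5 : l = i₀
          · subst h5
            rw [hsym]
            by_cases h6 : i = l₀
            · rw [h6]
            · exact h3 l i l₀ (Ne.symm hil) h₀ h6
          · rw [h3 i l i₀ hil h4 h5, hsym]
            by_cases h6 : i = l₀
            · rw [h6]
            · exact h3 i₀ i l₀ (Ne.symm h4) h₀ h6
      refine ⟨a i₀ l₀ * (t i₀ * t l₀), mul_ne_zero (h2 _ _ h₀) (mul_ne_zero (ht _) (ht _)),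
        fun i l hil => ?_⟩
      rw [← key i l hil]
      have e1 := f3 (ht i)
      have e2 := f3 (ht l)
      linear_combination (-(a i l) * (t l * t l)) * e1 - a i l * e2
    · push Not at hk
      exact ⟨1, one_ne_zero, fun i l hil => absurd (hk i l) hil⟩
  · rintro ⟨c, hc, h⟩ e he
    rw [nS_three (supp_ne he) a]
    intro v hv
    have key : ∀ j, e j ≠ 0 → v j * ∑ i, e i * t i = ∑ i, e i * t i * v i := by
      intro j hj
      have h1 := hv.2 j hj
      have h2 : ∑ i, e i * a j i * (v i - v j) = c * t j * (∑ i, e i * t i * v i -
          v j * ∑ i, e i * t i) := by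
        rw [Finset.mul_sum, ← Finset.sum_sub_distrib, Finset.mul_sum]
        refine Finset.sum_congr rfl fun i _ => ?_
        by_cases hji : j = i
        · rw [hji]
          ring
        · rw [h j i hji]
          ring
      rw [h2] at h1
      have h3 := (mul_eq_zero.1 h1).resolve_left (mul_ne_zero hc (ht j))
      linear_combination -h3
    intro i l hi hl
    exact mul_right_cancel₀ he ((key i hi).trans (key l hl).symm)

/-- the number of the matrices -/
theorem card_allT (hk : 2 ≤ k) {t : Fin k → F} (ht : ∀ i, t i ≠ 0) :
    Nat.card {a : Matrix (Fin k) (Fin k) F // a.IsSymm ∧ (∀ i, a i i = 0) ∧ AllT t a} = 2 := by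
  have e : {c : F // c ≠ 0} ≃ {a : Matrix (Fin k) (Fin k) F // a.IsSymm ∧ (∀ i, a i i = 0) ∧
      AllT t a} := by
    refine Equiv.ofBijective (fun c => ⟨fun i l => if i = l then 0 else c.1 * (t i * t l), ?_, fun i =>
      if_pos rfl, ?_⟩) ⟨?_, ?_⟩
    · refine Matrix.IsSymm.ext fun i l => ?_
      by_cases h : i = l
      · rw [h]
      · rw [if_neg h, if_neg fun h' => h h'.symm]
        ring
    · refine (allT_iff ht (fun i l => ?_) fun i => if_pos rfl).2 ⟨c.1, c.2, fun i l hil => if_neg hil⟩
      by_cases h : i = l
      · rw [h]
      · rw [if_neg h, if_neg fun h' => h h'.symm]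
        ring
    · intro c d h
      have h1 := congrFun (congrFun (congrArg Subtype.val h) ⟨0, by omega⟩) ⟨1, by omega⟩
      have h2 : (⟨0, by omega⟩ : Fin k) ≠ ⟨1, by omega⟩ := by
        intro h3
        have := congrArg Fin.val h3
        simp at this
      simp only [if_neg h2] at h1
      exact Subtype.ext (mul_right_cancel₀ (mul_ne_zero (ht _) (ht _)) h1)
    · rintro ⟨a, h1, h2, h3⟩
      obtain ⟨c, hc, h4⟩ := (allT_iff ht (fun i l => h1.apply l i) h2).1 h3
      refine ⟨⟨c, hc⟩, Subtype.ext ?_⟩
      funext i l
      by_cases h : i = l
      · subst h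
        simp only [if_pos]
        exact (h2 i).symm
      · simp only [if_neg h]
        exact (h4 i l h).symm
  rw [← Nat.card_congr e]
  rw [Nat.card_eq_fintype_card]
  decide

end comb

end Pool.Agent.U120.DK
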