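import Pool.Agent.U120.DK.Cor
import Pool.Agent.U120.DL.Bil
import Pool.Agent.Y703.XK.Stm
import Pool.Agent.Y699.E.Box

/-!
# Bilinear sums of cubic symbols of arbitrary sets of primes of the ring of Eisenstein integers
-/

set_option autoImplicit false

open scoped Classical ComplexConjugate

namespace Pool.Agent.U120.DK

open Finset
open Pool.Agent.Y692.QS (Ei w nr toC toC_inj)
open Pool.Agent.Y715.T.Rec (cs FF mk fld ftp mk_eq_zero mk_eq mw card_FF')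
open Pool.Agent.Y715.T.RecG (Pq mk_three cs_chi)
open Pool.Agent.Y699.E

/-- the symbol as a character of the residue field -/
theorem exM {π : Ei} (h : Pq π) : letI := fld h.prime; letI := ftp h.prime
    ∃ χ : MulChar (FF π) ℂ, χ ≠ 1 ∧ (∀ x, x ≠ 0 → ‖χ x‖ = 1) ∧ ∀ x : Ei, chi π x = χ (mk π x) := by
  letI := fld h.prime
  letI := ftp h.prime
  have h3 := mk_three h.norm
  set χ0 := Pool.Agent.Y715.T.Cub.chi (mw π) h3 with hχ0
  have e0 : ∀ x : Ei, chi π x = toC (χ0 (mk π x)) := by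
    intro x
    by_cases hx : π ∣ x
    · rw [chi_zero_iff.2 hx, (mk_eq_zero x).2 hx, MulChar.map_zero, map_zero]
    · rw [chi_of hx, ez_pow]
      congr 1
      exact (cs_chi h.prime h.norm hx).symm
  refine ⟨χ0.ringHomComp toC, ?_, ?_, fun x => ?_⟩
  · intro hc
    refine Pool.Agent.Y715.T.Cub.chi_ne_one (mw π) h3 (MulChar.ext fun t => toC_inj ?_)
    have h1 := congrArg (fun f : MulChar (FF π) ℂ => f (t : FF π)) hc
    simp only [MulChar.ringHomComp_apply] at h1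
    rw [MulChar.one_apply t.isUnit] at h1
    rw [MulChar.one_apply t.isUnit, map_one]
    exact h1
  · intro x hx
    obtain ⟨y, rfl⟩ := Ideal.Quotient.mk_surjective x
    have hy : ¬ π ∣ y := fun hd => hx ((mk_eq_zero y).2 hd)
    rw [MulChar.ringHomComp_apply, ← e0, chi_of hy, norm_ez]
  · rw [MulChar.ringHomComp_apply]
    exact e0 x

/-- the elements with nonnegative coordinates -/
def ee (p : ℕ × ℕ) : Ei := ⟨(p.1 : ℤ), (p.2 : ℤ)⟩

/-- few points of a box are congruent -/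
theorem cls {Q N : ℕ} (hQ : 3 ≤ Q) (hQN : Q ≤ N ^ 2) (S : Finset (ℕ × ℕ))
    (hS : ∀ p ∈ S, p.1 < N ∧ p.2 < N)
    (hd : ∀ p ∈ S, ∀ q ∈ S, nrm (ee p - ee q) < Q → p = q) :
    (S.card : ℝ) * Q ≤ 26 * (N : ℝ) ^ 2 := by
  set m := Nat.sqrt (Q / 3) with hm
  have hm1 : 1 ≤ m := by
    rw [hm, Nat.le_sqrt]
    omega
  have hm2 : m * m ≤ Q / 3 := Nat.sqrt_le _
  have hm3 : Q / 3 < (m + 1) * (m + 1) := by
    rw [hm]
    exact Nat.lt_succ_sqrt _
  have hm4 : 3 * (m * m) ≤ Q := by omega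
  have hm5 : Q < 12 * (m * m) := by
    have h1 : Q < 3 * ((m + 1) * (m + 1)) := by omega
    have h2 : (m + 1) * (m + 1) ≤ (2 * m) * (2 * m) := Nat.mul_le_mul (by omega) (by omega)
    have h3 : (2 * m) * (2 * m) = 4 * (m * m) := by ring
    omega
  have hinj : Set.InjOn (fun p : ℕ × ℕ => (p.1 / m, p.2 / m)) (S : Set (ℕ × ℕ)) := by
    intro p hp q hq hpq
    simp only [Prod.mk.injEq] at hpq
    refine hd p hp q hq ?_
    have key : ∀ a b : ℕ, a / m = b / m → |(a : ℤ) - b| ≤ (m : ℤ) - 1 := by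
      intro a b hab
      have h1 := Nat.div_add_mod a m
      have h2 := Nat.div_add_mod b m
      have h3 := Nat.mod_lt a hm1
      have h4 := Nat.mod_lt b hm1
      rw [hab] at h1
      rw [abs_le]
      constructor <;> omega
    have k1 := key _ _ hpq.1
    have k2 := key _ _ hpq.2
    have h1 := nrm_eq' (ee p - ee q)
    have h2 : (nrm (ee p - ee q) : ℤ) ≤ 3 * ((m : ℤ) - 1) ^ 2 := by
      rw [h1]
      show ((p.1 : ℤ) - q.1) ^ 2 - ((p.1 : ℤ) - q.1) * ((p.2 : ℤ) - q.2) + ((p.2 : ℤ) - q.2) ^ 2 ≤ _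
      rw [abs_le] at k1 k2
      have a1 : ((p.1 : ℤ) - q.1) ^ 2 ≤ ((m : ℤ) - 1) ^ 2 := by nlinarith
      have a2 : ((p.2 : ℤ) - q.2) ^ 2 ≤ ((m : ℤ) - 1) ^ 2 := by nlinarith
      nlinarith [sq_nonneg (((p.1 : ℤ) - q.1) + ((p.2 : ℤ) - q.2))]
    have h3 : 3 * ((m : ℤ) - 1) ^ 2 < 3 * (m * m) := by
      have : (1 : ℤ) ≤ m := by exact_mod_cast hm1
      nlinarith
    have h4 : (3 * (m * m) : ℤ) ≤ Q := by exact_mod_cast hm4
    have h5 : (nrm (ee p - ee q) : ℤ) < Q := lt_of_le_of_lt h2 (lt_of_lt_of_le h3 h4)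
    exact_mod_cast h5
  have h1 : S.card ≤ (N / m + 1) ^ 2 := by
    have h2 : S.card ≤ ((range (N / m + 1)) ×ˢ (range (N / m + 1))).card := by
      refine Finset.card_le_card_of_injOn _ (fun p hp => ?_) hinj
      rw [Finset.mem_coe, Finset.mem_product, Finset.mem_range, Finset.mem_range]
      have h3 := hS p hp
      exact ⟨Nat.lt_succ_of_le (Nat.div_le_div_right h3.1.le),
        Nat.lt_succ_of_le (Nat.div_le_div_right h3.2.le)⟩
    rw [Finset.card_product, Finset.card_range] at h2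
    rw [sq]
    exact h2
  have hmr : (1 : ℝ) ≤ m := by exact_mod_cast hm1
  have hm0 : (0 : ℝ) < m := by linarith
  have h2 : (S.card : ℝ) ≤ 2 * ((N : ℝ) / m) ^ 2 + 2 := by
    have h3 : (S.card : ℝ) ≤ (((N / m : ℕ) : ℝ) + 1) ^ 2 := by exact_mod_cast h1
    have h4 : ((N / m : ℕ) : ℝ) ≤ (N : ℝ) / m := Nat.cast_div_le
    have h5 : (((N / m : ℕ) : ℝ) + 1) ^ 2 ≤ ((N : ℝ) / m + 1) ^ 2 := by gcongr
    nlinarith [sq_nonneg ((N : ℝ) / m - 1)]
  have hQr : (Q : ℝ) ≤ 12 * ((m : ℝ) * m) := by exact_mod_cast hm5.le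
  have hQN' : (Q : ℝ) ≤ (N : ℝ) ^ 2 := by exact_mod_cast hQN
  have h3 : ((N : ℝ) / m) ^ 2 * Q ≤ 12 * (N : ℝ) ^ 2 := by
    calc ((N : ℝ) / m) ^ 2 * Q ≤ ((N : ℝ) / m) ^ 2 * (12 * ((m : ℝ) * m)) := by gcongr
      _ = 12 * (N : ℝ) ^ 2 := by field_simp
  calc (S.card : ℝ) * Q ≤ (2 * ((N : ℝ) / m) ^ 2 + 2) * Q := by gcongr
    _ = 2 * (((N : ℝ) / m) ^ 2 * Q) + 2 * Q := by ring
    _ ≤ 2 * (12 * (N : ℝ) ^ 2) + 2 * (N : ℝ) ^ 2 := by linarith
    _ = 26 * (N : ℝ) ^ 2 := by ring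

/-- the box -/
def bx (N : ℕ) : Finset (ℕ × ℕ) := range N ×ˢ range N

/-- **the correlation of the symbols of two primes, with Fejer weights** -/
theorem fejer {π ρ : Ei} (h : Pq π) (h' : Pq ρ) (hne : π ≠ ρ) {N : ℕ}
    (hN : nrm π * nrm ρ ≤ N ^ 2) :
    ‖∑ u ∈ bx N, ∑ v ∈ bx N, chi π (ee u - ee v) * conj (chi ρ (ee u - ee v))‖ ≤
      37 * (N : ℝ) ^ 4 / (√(nrm π : ℝ) * √(nrm ρ : ℝ)) := by
  letI := fld h.prime
  letI := ftp h.prime
  letI := fld h'.prime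
  letI := ftp h'.prime
  obtain ⟨χ, hχ1, hχ2, hχ3⟩ := exM h
  obtain ⟨ψ, hψ1, hψ2, hψ3⟩ := exM h'
  have c1 : Fintype.card (FF π) = nrm π := card_FF' h.prime
  have c2 : Fintype.card (FF ρ) = nrm ρ := card_FF' h'.prime
  have hn1 : 2 ≤ nrm π := pq_nrm_two h
  have hn2 : 2 ≤ nrm ρ := pq_nrm_two h'
  have hcop : IsCoprime π ρ := by
    rw [h.prime.irreducible.coprime_iff_not_dvd]
    exact fun hd => hne (eq_of_dvd h h' hd)
  set Q := nrm π * nrm ρ with hQ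
  have hQ3 : 3 ≤ Q := by nlinarith
  have hQr : (0 : ℝ) < Q := by exact_mod_cast (by omega : 0 < Q)
  have hcard : (Fintype.card (FF π × FF ρ) : ℝ) = Q := by
    rw [Fintype.card_prod, c1, c2]
  set G : FF π × FF ρ → ℂ := fun x => χ x.1 * conj (ψ x.2) with hG
  set K : FF π × FF ρ → FF π × FF ρ → ℝ := fun b c =>
    ((if b.1 = c.1 then (nrm π : ℝ) else 0) - 1) * ((if b.2 = c.2 then (nrm ρ : ℝ) else 0) - 1) with hK
  have hcor : ∀ b c, ∑ x, G (x - b) * conj (G (x - c)) = (K b c : ℂ) := by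
    intro b c
    have e1 := cor1 χ hχ1 hχ2 b.1 c.1
    have e2 := cor1 ψ hψ1 hψ2 b.2 c.2
    rw [c1] at e1
    rw [c2] at e2
    have e3 := congrArg conj e2
    rw [map_sum, Complex.conj_ofReal] at e3
    rw [hK]
    simp only [Complex.ofReal_mul]
    rw [← e1, ← e3, Fintype.sum_prod_type, Finset.sum_mul_sum]
    refine Finset.sum_congr rfl fun x _ => Finset.sum_congr rfl fun y _ => ?_
    simp only [hG, Prod.fst_sub, Prod.snd_sub, map_mul, Complex.conj_conj]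
    ring
  have hn1r : (2 : ℝ) ≤ nrm π := by exact_mod_cast hn1
  have hn2r : (2 : ℝ) ≤ nrm ρ := by exact_mod_cast hn2
  have hKb : ∀ b c, K b c ≤ (if b = c then (Fintype.card (FF π × FF ρ) : ℝ) else 0) + 1 := by
    intro b c
    rw [hcard, hK, hQ]
    push_cast
    by_cases h1 : b.1 = c.1
    · by_cases h2 : b.2 = c.2
      · rw [if_pos h1, if_pos h2, if_pos (Prod.ext h1 h2)]
        nlinarith
      · have h3 : ¬ b = c := fun hh => h2 (congrArg Prod.snd hh)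
        rw [if_pos h1, if_neg h2, if_neg h3]
        nlinarith
    · have h3 : ¬ b = c := fun hh => h1 (congrArg Prod.fst hh)
      rw [if_neg h1, if_neg h3]
      by_cases h2 : b.2 = c.2
      · rw [if_pos h2]
        nlinarith
      · rw [if_neg h2]
        norm_num
  have hM : ∀ t : FF π × FF ρ, (((bx N).filter fun u => ((mk π (ee u), mk ρ (ee u)) : FF π × FF ρ) = t).card : ℝ) ≤
      26 * (N : ℝ) ^ 2 / Q := by
    intro t
    rw [le_div_iff₀ hQr]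
    refine cls hQ3 hN _ (fun p hp => ?_) fun p hp q hq hlt => ?_
    · have h1 := (Finset.mem_filter.1 hp).1
      unfold bx at h1
      rw [Finset.mem_product, Finset.mem_range, Finset.mem_range] at h1
      exact h1
    · have h1 := (Finset.mem_filter.1 hp).2.trans (Finset.mem_filter.1 hq).2.symm
      have h2 : π ∣ ee p - ee q := (mk_eq _ _).1 (congrArg Prod.fst h1)
      have h3 : ρ ∣ ee p - ee q := (mk_eq _ _).1 (congrArg Prod.snd h1)
      have h4 : π * ρ ∣ ee p - ee q := hcop.mul_dvd h2 h3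
      by_contra hpq
      have h5 : ee p - ee q ≠ 0 := by
        intro h6
        rw [sub_eq_zero] at h6
        have h7 : ((p.1 : ℕ) : ℤ) = ((q.1 : ℕ) : ℤ) := congrArg QuadraticAlgebra.re h6
        have h8 : ((p.2 : ℕ) : ℤ) = ((q.2 : ℕ) : ℤ) := congrArg QuadraticAlgebra.im h6
        apply hpq
        refine Prod.ext ?_ ?_
        · exact_mod_cast h7
        · exact_mod_cast h8
      have h6 := norm_le_of_dvd h5 h4
      rw [nrm_mul] at h6
      omega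
  have h1 := dsum G K hcor (fun b c => by convert hKb b c) (bx N) (fun u => ((mk π (ee u), mk ρ (ee u)) : FF π × FF ρ))
    (26 * (N : ℝ) ^ 2 / Q) (fun t => by convert hM t)
  have e1 : ∀ u v : ℕ × ℕ, G (((mk π (ee u), mk ρ (ee u)) : FF π × FF ρ) - (mk π (ee v), mk ρ (ee v))) =
      chi π (ee u - ee v) * conj (chi ρ (ee u - ee v)) := by
    intro u v
    rw [hχ3, hψ3, (mk π).map_sub, (mk ρ).map_sub]
    rfl
  simp only [e1] at h1
  have hB : ((bx N).card : ℝ) = (N : ℝ) ^ 2 := by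
    unfold bx
    rw [Finset.card_product, Finset.card_range]
    push_cast
    ring
  rw [hcard, hB] at h1
  have hsq : (√(nrm π : ℝ) * √(nrm ρ : ℝ)) ^ 2 = Q := by
    rw [mul_pow, Real.sq_sqrt (by linarith), Real.sq_sqrt (by linarith), hQ]
    push_cast
    rfl
  have hpos : 0 < √(nrm π : ℝ) * √(nrm ρ : ℝ) :=
    mul_pos (Real.sqrt_pos.2 (by linarith)) (Real.sqrt_pos.2 (by linarith))
  refine le_of_pow_le_pow_left₀ (n := 2) (by norm_num) (by positivity) (h1.trans ?_)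
  rw [div_pow (37 * (N : ℝ) ^ 4), hsq]
  have e2 : 2 * (Q : ℝ) * (26 * (N : ℝ) ^ 2 / Q) ^ 2 * ((N : ℝ) ^ 2) ^ 2 = 1352 * (N : ℝ) ^ 8 / Q := by
    field_simp
    ring
  have e3 : (37 * (N : ℝ) ^ 4) ^ 2 / Q = 1369 * (N : ℝ) ^ 8 / Q := by
    ring
  rw [e2, e3]
  gcongr
  norm_num

/-- the sum of the inverses of the square roots of the norms -/
theorem sumw (n : ℕ) : ∀ T : Finset Ei, T.card = n → (∀ x ∈ T, x ≠ 0) →
    ∑ x ∈ T, 1 / √(nrm x : ℝ) ≤ 8 * √(n : ℝ) := by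
  induction n with
  | zero =>
    intro T hT _
    rw [Finset.card_eq_zero.1 hT]
    simp
  | succ n ih =>
    intro T hT hT0
    have hne : T.Nonempty := Finset.card_pos.1 (by omega)
    obtain ⟨y, hy, hmax⟩ := T.exists_max_image nrm hne
    have h1 := ih (T.erase y) (by rw [Finset.card_erase_of_mem hy, hT]; rfl)
      fun x hx => hT0 x (Finset.mem_of_mem_erase hx)
    rw [← Finset.add_sum_erase T _ hy]
    have hy1 : 1 ≤ nrm y := nrm_pos' (hT0 y hy)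
    have h2 : (T.card : ℝ) ≤ 16 * nrm y := by
      have h3 : T ⊆ ZB (nrm y) := fun x hx => mem_ZB.2 (hmax x hx)
      have h4 : (T.card : ℝ) ≤ ((ZB (nrm y)).card : ℝ) := by exact_mod_cast Finset.card_le_card h3
      exact h4.trans (card_ZB_le hy1)
    rw [hT] at h2
    push_cast at h2
    set a : ℝ := √((n : ℝ) + 1) with ha
    set b : ℝ := √(n : ℝ) with hb
    have hn0 : (0 : ℝ) ≤ n := Nat.cast_nonneg n
    have ha2 : a ^ 2 = n + 1 := Real.sq_sqrt (by linarith)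
    have hb2 : b ^ 2 = n := Real.sq_sqrt hn0
    have ha0 : 0 < a := Real.sqrt_pos.2 (by linarith)
    have hb0 : 0 ≤ b := Real.sqrt_nonneg _
    have hba : b ≤ a := Real.sqrt_le_sqrt (by linarith)
    have hY : 0 < √(nrm y : ℝ) := Real.sqrt_pos.2 (by exact_mod_cast hy1)
    have h5 : a ≤ 4 * √(nrm y : ℝ) := by
      have h6 : (4 * √(nrm y : ℝ)) ^ 2 = 16 * nrm y := by
        rw [mul_pow, Real.sq_sqrt (Nat.cast_nonneg _)]
        norm_num
      refine le_of_pow_le_pow_left₀ (n := 2) (by norm_num) (by positivity) ?_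
      rw [ha2, h6]
      exact h2
    have h6 : 1 / √(nrm y : ℝ) ≤ 4 / a := by
      rw [div_le_div_iff₀ hY ha0]
      linarith
    have h7 : 4 / a ≤ 8 * a - 8 * b := by
      rw [div_le_iff₀ ha0]
      nlinarith
    push_cast
    rw [← ha]
    linarith

/-- the second moment of the symbols, with Fejer weights -/
theorem second2 {X : ℕ} (hX : 1 ≤ X) {T : Finset Ei} (hT : ∀ q ∈ T, Pq q ∧ nrm q ≤ X)
    (eps : Ei → ℂ) (heps : ∀ m, ‖eps m‖ ≤ 1) :
    ∑ g ∈ ZB (X ^ 2), ‖∑ m ∈ T, eps m * chi m g‖ ^ 2 ≤ 606464 * (T.card * (X : ℝ) ^ 2) := by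
  have hXr : (1 : ℝ) ≤ X := by exact_mod_cast hX
  set N : ℕ := 8 * X with hN
  set D : Finset ((ℕ × ℕ) × (ℕ × ℕ)) := bx N ×ˢ bx N with hD
  set z : Ei → (ℕ × ℕ) × (ℕ × ℕ) → ℂ := fun m g => chi m (ee g.1 - ee g.2) with hz
  have hB : ((bx N).card : ℝ) = (N : ℝ) ^ 2 := by
    unfold bx
    rw [Finset.card_product, Finset.card_range]
    push_cast
    ring
  have hDc : (D.card : ℝ) = (N : ℝ) ^ 4 := by
    rw [hD, Finset.card_product]
    push_cast
    rw [hB]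
    ring
  set wt : Ei → Ei → ℝ := fun m m' => (if m = m' then (N : ℝ) ^ 4 else 0) +
    37 * (N : ℝ) ^ 4 * ((1 / √(nrm m : ℝ)) * (1 / √(nrm m' : ℝ))) with hwt
  have hw : ∀ m m', m ∈ T → m' ∈ T → ‖∑ g ∈ D, z m g * conj (z m' g)‖ ≤ wt m m' := by
    intro m m' hm hm'
    by_cases hmm : m = m'
    · subst hmm
      simp only [hwt, if_pos]
      have h1 : ‖∑ g ∈ D, z m g * conj (z m g)‖ ≤ (N : ℝ) ^ 4 := by
        refine (norm_sum_le _ _).trans ?_
        refine (Finset.sum_le_sum (g := fun _ => (1 : ℝ)) fun g _ => ?_).trans ?_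
        · rw [norm_mul, RCLike.norm_conj]
          exact mul_le_one₀ (chi_norm _ _) (norm_nonneg _) (chi_norm _ _)
        · rw [Finset.sum_const, nsmul_eq_mul, mul_one, hDc]
      have h2 : 0 ≤ 37 * (N : ℝ) ^ 4 * ((1 / √(nrm m : ℝ)) * (1 / √(nrm m : ℝ))) := by positivity
      linarith
    · have e1 : ∑ g ∈ D, z m g * conj (z m' g) =
          ∑ u ∈ bx N, ∑ v ∈ bx N, chi m (ee u - ee v) * conj (chi m' (ee u - ee v)) := by
        rw [hD, Finset.sum_product]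
      rw [e1]
      have hle : nrm m * nrm m' ≤ N ^ 2 := by
        have h1 := (hT m hm).2
        have h2 := (hT m' hm').2
        rw [hN]
        nlinarith [Nat.mul_le_mul h1 h2]
      refine (fejer (hT m hm).1 (hT m' hm').1 hmm hle).trans (le_of_eq ?_)
      simp only [hwt, if_neg hmm]
      field_simp
      ring
  have h1 := second T D z wt hw eps heps
  have h2 : ∑ m ∈ T, ∑ m' ∈ T, wt m m' ≤ 2369 * ((N : ℝ) ^ 4 * T.card) := by
    have hT0 : ∀ x ∈ T, x ≠ 0 := fun x hx => (hT x hx).1.prime.ne_zero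
    have h3 := sumw T.card T rfl hT0
    have h4 : ∑ m ∈ T, ∑ m' ∈ T, wt m m' = (N : ℝ) ^ 4 * T.card +
        37 * (N : ℝ) ^ 4 * (∑ x ∈ T, 1 / √(nrm x : ℝ)) ^ 2 := by
      simp only [hwt]
      have e1 : ∀ m ∈ T, ∑ m' ∈ T, ((if m = m' then (N : ℝ) ^ 4 else 0) +
          37 * (N : ℝ) ^ 4 * ((1 / √(nrm m : ℝ)) * (1 / √(nrm m' : ℝ)))) =
          (N : ℝ) ^ 4 + 37 * (N : ℝ) ^ 4 * ((1 / √(nrm m : ℝ)) * ∑ x ∈ T, 1 / √(nrm x : ℝ)) := by
        intro m hm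
        rw [Finset.sum_add_distrib, Finset.sum_ite_eq, if_pos hm, Finset.mul_sum, Finset.mul_sum]
      rw [Finset.sum_congr rfl e1, Finset.sum_add_distrib, Finset.sum_const, nsmul_eq_mul,
        ← Finset.mul_sum, ← Finset.sum_mul]
      ring
    rw [h4]
    have h5 : (∑ x ∈ T, 1 / √(nrm x : ℝ)) ^ 2 ≤ 64 * (T.card : ℝ) := by
      have h6 : 0 ≤ ∑ x ∈ T, 1 / √(nrm x : ℝ) := Finset.sum_nonneg fun _ _ => by positivity
      calc (∑ x ∈ T, 1 / √(nrm x : ℝ)) ^ 2 ≤ (8 * √(T.card : ℝ)) ^ 2 := by gcongr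
        _ = 64 * (T.card : ℝ) := by
            rw [mul_pow, Real.sq_sqrt (Nat.cast_nonneg _)]
            norm_num
    have h6 := mul_le_mul_of_nonneg_left h5 (by positivity : 0 ≤ 37 * (N : ℝ) ^ 4)
    linarith
  have h3 : 16 * (X : ℝ) ^ 2 * ∑ g ∈ ZB (X ^ 2), ‖∑ m ∈ T, eps m * chi m g‖ ^ 2 ≤
      ∑ g ∈ D, ‖∑ m ∈ T, eps m * z m g‖ ^ 2 := by
    set E : Finset (Ei × (ℕ × ℕ)) := ZB (X ^ 2) ×ˢ (Finset.Ico (2 * X) (6 * X) ×ˢ Finset.Ico (2 * X) (6 * X))
      with hE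
    set f : Ei × (ℕ × ℕ) → (ℕ × ℕ) × (ℕ × ℕ) := fun g =>
      ((((g.2.1 : ℤ) + g.1.re).toNat, ((g.2.2 : ℤ) + g.1.im).toNat), g.2) with hf
    have hco : ∀ g ∈ ZB (X ^ 2), |g.re| ≤ 2 * (X : ℤ) ∧ |g.im| ≤ 2 * (X : ℤ) := by
      intro g hg
      have h4 := mem_ZB.1 hg
      have h5 := nrm_eq' g
      have h6 : (nrm g : ℤ) ≤ (X : ℤ) ^ 2 := by exact_mod_cast h4
      rw [h5] at h6
      constructor
      · refine abs_le_of_sq_le_sq ?_ (by positivity)
        nlinarith [sq_nonneg (2 * g.im - g.re)]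
      · refine abs_le_of_sq_le_sq ?_ (by positivity)
        nlinarith [sq_nonneg (2 * g.re - g.im)]
    have hfe : ∀ g ∈ E, (((f g).1.1 : ℤ) = (g.2.1 : ℤ) + g.1.re) ∧
        (((f g).1.2 : ℤ) = (g.2.2 : ℤ) + g.1.im) ∧ f g ∈ D := by
      intro g hg
      rw [hE, Finset.mem_product, Finset.mem_product, Finset.mem_Ico, Finset.mem_Ico] at hg
      obtain ⟨h4, ⟨h5, h6⟩, h7, h8⟩ := hg
      obtain ⟨h9, h10⟩ := hco _ h4
      rw [abs_le] at h9 h10
      have e1 : (((g.2.1 : ℤ) + g.1.re).toNat : ℤ) = (g.2.1 : ℤ) + g.1.re :=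
        Int.toNat_of_nonneg (by omega)
      have e2 : (((g.2.2 : ℤ) + g.1.im).toNat : ℤ) = (g.2.2 : ℤ) + g.1.im :=
        Int.toNat_of_nonneg (by omega)
      refine ⟨e1, e2, ?_⟩
      rw [hD, Finset.mem_product]
      unfold bx
      simp only [Finset.mem_product, Finset.mem_range, hf]
      refine ⟨⟨?_, ?_⟩, ?_, ?_⟩ <;> omega
    have hinj : Set.InjOn f (E : Set (Ei × (ℕ × ℕ))) := by
      intro g hg g' hg' hgg
      obtain ⟨a1, a2, -⟩ := hfe g hg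
      obtain ⟨b1, b2, -⟩ := hfe g' hg'
      have h4 : (f g).2 = (f g').2 := by rw [hgg]
      change g.2 = g'.2 at h4
      rw [hgg] at a1 a2
      rw [← h4] at b1 b2
      refine Prod.ext ?_ h4
      refine QuadraticAlgebra.ext ?_ ?_
      · linarith
      · linarith
    have hval : ∀ g ∈ E, ‖∑ m ∈ T, eps m * z m (f g)‖ ^ 2 = ‖∑ m ∈ T, eps m * chi m g.1‖ ^ 2 := by
      intro g hg
      obtain ⟨a1, a2, -⟩ := hfe g hg
      have e1 : ee (f g).1 - ee (f g).2 = g.1 := by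
        refine QuadraticAlgebra.ext ?_ ?_
        · show ((f g).1.1 : ℤ) - ((g.2.1 : ℕ) : ℤ) = g.1.re
          rw [a1]
          ring
        · show ((f g).1.2 : ℤ) - ((g.2.2 : ℕ) : ℤ) = g.1.im
          rw [a2]
          ring
      simp only [hz, e1]
    have e1 : 16 * (X : ℝ) ^ 2 * ∑ g ∈ ZB (X ^ 2), ‖∑ m ∈ T, eps m * chi m g‖ ^ 2 =
        ∑ g ∈ E, ‖∑ m ∈ T, eps m * z m (f g)‖ ^ 2 := by
      rw [Finset.sum_congr rfl hval, hE, Finset.sum_product, Finset.mul_sum]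
      refine Finset.sum_congr rfl fun g _ => ?_
      simp only
      rw [Finset.sum_const, nsmul_eq_mul]
      congr 1
      rw [Finset.card_product, Nat.card_Ico]
      have : 6 * X - 2 * X = 4 * X := by omega
      rw [this]
      push_cast
      ring
    rw [e1, ← Finset.sum_image (f := fun g => ‖∑ m ∈ T, eps m * z m g‖ ^ 2) hinj]
    refine Finset.sum_le_sum_of_subset_of_nonneg ?_ fun _ _ _ => sq_nonneg _
    intro g hg
    obtain ⟨y, h4, rfl⟩ := Finset.mem_image.1 hg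
    exact (hfe y h4).2.2
  have h4 : 16 * (X : ℝ) ^ 2 * ∑ g ∈ ZB (X ^ 2), ‖∑ m ∈ T, eps m * chi m g‖ ^ 2 ≤
      16 * (X : ℝ) ^ 2 * (606464 * (T.card * (X : ℝ) ^ 2)) := by
    refine (h3.trans (h1.trans h2)).trans (le_of_eq ?_)
    rw [hN]
    push_cast
    ring
  exact le_of_mul_le_mul_left h4 (by positivity)

/-- **the bilinear estimate** -/
theorem bil4 {X : ℕ} (hX : 1 ≤ X) {T P : Finset Ei} (hT : ∀ q ∈ T, Pq q ∧ nrm q ≤ X)
    (hP : ∀ p ∈ P, Pq p ∧ nrm p ≤ X)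
    (c d : Ei → ℂ) (hc : ∀ p, ‖c p‖ ≤ 1) (hd : ∀ q, ‖d q‖ ≤ 1) :
    ‖∑ m ∈ T, ∑ x ∈ P, c m * d x * chi m x‖ ^ 4 ≤
      2425856 * ((X : ℝ) ^ 2 * ((T.card : ℝ) ^ 3 * (P.card : ℝ) ^ 2)) := by
  have hu : ∀ x ∈ P, ∀ s : Fin 2 → Ei, (∀ i, s i ∈ P) → id x ∣ ∏ i, id (s i) → ∃ i, x = s i := by
    intro x hx s hs hd
    obtain ⟨j, -, hj⟩ := (Prime.dvd_finsetProd_iff (hP x hx).1.prime _).1 hd
    exact ⟨j, eq_of_dvd (hP x hx).1 (hP _ (hs j)).1 hj⟩
  have hD : ∀ s : Fin 2 → Ei, (∀ i, s i ∈ P) → ∏ i, id (s i) ∈ ZB (X ^ 2) := by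
    intro s hs
    rw [mem_ZB, Fin.prod_univ_two, nrm_mul, sq]
    exact Nat.mul_le_mul (hP _ (hs 0)).2 (hP _ (hs 1)).2
  have h := Pool.Agent.U120.DL.holder2 T P (ZB (X ^ 2)) id chi (fun m hm => chi_one (hT m hm).1)
    (fun m hm => chi_mul (hT m hm).1) hD hu c d hc hd _ (fun eps heps => second2 hX hT eps heps)
  refine h.trans (le_of_eq ?_)
  ring

end Pool.Agent.U120.DK
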