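import Mathlib

/-!
# Correlations of characters of finite fields and double sums over sets with few elements in each class
-/

set_option autoImplicit false

open scoped Classical ComplexConjugate

namespace Pool.Agent.U120.DK

open Finset

/-- the correlation of a nontrivial character of a finite field -/
theorem cor1 {F : Type} [Field F] [Fintype F] (χ : MulChar F ℂ) (hχ : χ ≠ 1)
    (hn : ∀ x, x ≠ 0 → ‖χ x‖ = 1) (b c : F) :
    ∑ x, χ (x - b) * conj (χ (x - c)) =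
      (((if b = c then (Fintype.card F : ℝ) else 0) - 1 : ℝ) : ℂ) := by
  have hnn : ∀ x, x ≠ 0 → χ x * conj (χ x) = 1 := by
    intro x hx
    rw [Complex.mul_conj, Complex.normSq_eq_norm_sq, hn x hx]
    norm_num
  by_cases h : b = c
  · subst h
    rw [if_pos rfl]
    have e1 : ∀ x : F, χ (x - b) * conj (χ (x - b)) = 1 - if x = b then 1 else 0 := by
      intro x
      by_cases hx : x = b
      · subst hx
        rw [if_pos rfl, sub_self, MulChar.map_zero]
        simp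
      · rw [if_neg hx, hnn _ (sub_ne_zero.2 hx), sub_zero]
    rw [Finset.sum_congr rfl fun x _ => e1 x, Finset.sum_sub_distrib, Finset.sum_ite_eq',
      if_pos (Finset.mem_univ _), Finset.sum_const, Finset.card_univ, nsmul_eq_mul, mul_one]
    push_cast
    rfl
  · rw [if_neg h]
    have hd : c - b ≠ 0 := sub_ne_zero.2 (Ne.symm h)
    have e1 : ∀ x ∈ univ.erase c, χ (x - b) * conj (χ (x - c)) = χ ((x - b) * (x - c)⁻¹) := by
      intro x hx
      have hx' : x - c ≠ 0 := sub_ne_zero.2 (Finset.mem_erase.1 hx).1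
      rw [map_mul]
      congr 1
      have h1 := hnn _ hx'
      have h2 : χ (x - c) * χ (x - c)⁻¹ = 1 := by
        rw [← map_mul, mul_inv_cancel₀ hx', map_one]
      have h3 : χ (x - c) ≠ 0 := left_ne_zero_of_mul_eq_one h1
      exact mul_left_cancel₀ h3 (h1.trans h2.symm)
    rw [← Finset.add_sum_erase univ _ (Finset.mem_univ c), sub_self, MulChar.map_zero, map_zero,
      mul_zero, zero_add, Finset.sum_congr rfl e1]
    have e2 : ∑ x ∈ univ.erase c, χ ((x - b) * (x - c)⁻¹) = ∑ t ∈ univ.erase (1 : F), χ t := by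
      refine Finset.sum_nbij' (fun x => (x - b) * (x - c)⁻¹) (fun t => c + (c - b) * (t - 1)⁻¹)
        (fun x hx => ?_) (fun t ht => ?_) (fun x hx => ?_) (fun t ht => ?_) (fun x _ => rfl)
      · have hx' : x - c ≠ 0 := sub_ne_zero.2 (Finset.mem_erase.1 hx).1
        refine Finset.mem_erase.2 ⟨fun h1 => hd ?_, Finset.mem_univ _⟩
        have h2 := (mul_inv_eq_one₀ hx').1 h1
        linear_combination h2
      · have ht' : t - 1 ≠ 0 := sub_ne_zero.2 (Finset.mem_erase.1 ht).1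
        refine Finset.mem_erase.2 ⟨fun h1 => ?_, Finset.mem_univ _⟩
        have h2 : (c - b) * (t - 1)⁻¹ = 0 := by linear_combination h1
        exact (mul_ne_zero hd (inv_ne_zero ht')) h2
      · have hx' : x - c ≠ 0 := sub_ne_zero.2 (Finset.mem_erase.1 hx).1
        have h2 : (x - b) * (x - c)⁻¹ - 1 = (c - b) * (x - c)⁻¹ := by
          field_simp
          ring
        simp only [h2]
        rw [mul_inv, inv_inv]
        field_simp
        ring
      · have ht' : t - 1 ≠ 0 := sub_ne_zero.2 (Finset.mem_erase.1 ht).1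
        have h3 : c + (c - b) * (t - 1)⁻¹ - c = (c - b) * (t - 1)⁻¹ := by ring
        rw [h3, mul_inv, inv_inv]
        field_simp
        ring
    rw [e2]
    have e3 := MulChar.sum_eq_zero_of_ne_one hχ
    rw [← Finset.add_sum_erase univ _ (Finset.mem_univ (1 : F)), map_one] at e3
    have e4 : ∑ t ∈ univ.erase (1 : F), χ t = -1 := by linear_combination e3
    rw [e4]
    push_cast
    ring

/-- double sums over a set with at most `M` elements in each class -/
theorem dsum {H : Type} [AddCommGroup H] [Fintype H] (G : H → ℂ) (K : H → H → ℝ)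
    (hK : ∀ b c, ∑ x, G (x - b) * conj (G (x - c)) = (K b c : ℂ))
    (hc : ∀ b c, K b c ≤ (if b = c then (Fintype.card H : ℝ) else 0) + 1)
    {ι : Type} (B : Finset ι) (Φ : ι → H) (M : ℝ)
    (hM : ∀ h, ((B.filter fun u => Φ u = h).card : ℝ) ≤ M) :
    ‖∑ u ∈ B, ∑ v ∈ B, G (Φ u - Φ v)‖ ^ 2 ≤
      2 * (Fintype.card H : ℝ) * M ^ 2 * (B.card : ℝ) ^ 2 := by
  set g : H → ℂ := fun x => ∑ v ∈ B, G (x - Φ v) with hg
  set Q : ℝ := (Fintype.card H : ℝ) with hQ
  have hQ0 : 0 ≤ Q := Nat.cast_nonneg _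
  have hM0 : 0 ≤ M := (Nat.cast_nonneg _).trans (hM 0)
  have hB0 : (0 : ℝ) ≤ B.card := Nat.cast_nonneg _
  have h1 : ‖∑ u ∈ B, g (Φ u)‖ ^ 2 ≤ B.card * ∑ u ∈ B, ‖g (Φ u)‖ ^ 2 :=
    (pow_le_pow_left₀ (norm_nonneg _) (norm_sum_le _ _) 2).trans
      (sq_sum_le_card_mul_sum_sq (s := B) (f := fun u => ‖g (Φ u)‖))
  have h2 : ∑ u ∈ B, ‖g (Φ u)‖ ^ 2 ≤ M * ∑ x, ‖g x‖ ^ 2 := by
    rw [← Finset.sum_fiberwise B Φ fun u => ‖g (Φ u)‖ ^ 2, Finset.mul_sum]
    refine Finset.sum_le_sum fun x _ => ?_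
    have e : ∑ u ∈ B with Φ u = x, ‖g (Φ u)‖ ^ 2 = ∑ u ∈ B with Φ u = x, ‖g x‖ ^ 2 :=
      Finset.sum_congr rfl fun u hu => by rw [(Finset.mem_filter.1 hu).2]
    rw [e, Finset.sum_const, nsmul_eq_mul]
    exact mul_le_mul_of_nonneg_right (hM x) (sq_nonneg _)
  have h3 : ∑ x, ‖g x‖ ^ 2 = ∑ v ∈ B, ∑ v' ∈ B, K (Φ v) (Φ v') := by
    have e : ((∑ x, ‖g x‖ ^ 2 : ℝ) : ℂ) = ((∑ v ∈ B, ∑ v' ∈ B, K (Φ v) (Φ v') : ℝ) : ℂ) := by
      push_cast
      have e1 : ∀ x, (‖g x‖ : ℂ) ^ 2 = ∑ v ∈ B, ∑ v' ∈ B, G (x - Φ v) * conj (G (x - Φ v')) := by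
        intro x
        rw [← Complex.mul_conj', hg]
        simp only [map_sum]
        rw [Finset.sum_mul_sum]
      rw [Finset.sum_congr rfl fun x _ => e1 x, Finset.sum_comm]
      refine Finset.sum_congr rfl fun v _ => ?_
      rw [Finset.sum_comm]
      exact Finset.sum_congr rfl fun v' _ => hK _ _
    exact_mod_cast e
  have h4 : ∑ v ∈ B, ∑ v' ∈ B, K (Φ v) (Φ v') ≤ B.card * (Q * M + B.card) := by
    have h5 : ∀ v ∈ B, ∑ v' ∈ B, K (Φ v) (Φ v') ≤ Q * M + B.card := by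
      intro v _
      refine (Finset.sum_le_sum fun v' _ => hc _ _).trans ?_
      rw [Finset.sum_add_distrib, Finset.sum_const, nsmul_eq_mul, mul_one, ← Finset.sum_filter,
        Finset.sum_const, nsmul_eq_mul]
      have e : (B.filter fun v' => Φ v = Φ v') = B.filter fun v' => Φ v' = Φ v :=
        Finset.filter_congr fun v' _ => eq_comm
      rw [e, mul_comm]
      have := mul_le_mul_of_nonneg_left (hM (Φ v)) hQ0
      linarith
    refine (Finset.sum_le_sum h5).trans ?_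
    rw [Finset.sum_const, nsmul_eq_mul]
  have h5 : (B.card : ℝ) ≤ Q * M := by
    have e : B.card = ∑ x : H, (B.filter fun u => Φ u = x).card :=
      Finset.card_eq_sum_card_fiberwise fun _ _ => Finset.mem_coe.2 (Finset.mem_univ _)
    rw [e]
    push_cast
    refine (Finset.sum_le_sum fun x _ => hM x).trans ?_
    rw [Finset.sum_const, nsmul_eq_mul, Finset.card_univ]
  have h6 : (B.card : ℝ) * (Q * M + B.card) ≤ B.card * (2 * (Q * M)) :=
    mul_le_mul_of_nonneg_left (by linarith) hB0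
  calc ‖∑ u ∈ B, ∑ v ∈ B, G (Φ u - Φ v)‖ ^ 2 = ‖∑ u ∈ B, g (Φ u)‖ ^ 2 := rfl
    _ ≤ B.card * (M * (B.card * (2 * (Q * M)))) := by
        refine h1.trans (mul_le_mul_of_nonneg_left ?_ hB0)
        refine h2.trans (mul_le_mul_of_nonneg_left ?_ hM0)
        rw [h3]
        exact h4.trans h6
    _ = 2 * Q * M ^ 2 * (B.card : ℝ) ^ 2 := by ring

/-- the second moment with bounds for the correlations -/
theorem second {ι κ : Type} (P : Finset ι) (D : Finset κ) (z : ι → κ → ℂ)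
    (w : ι → ι → ℝ) (hz : ∀ m m', m ∈ P → m' ∈ P → ‖∑ g ∈ D, z m g * conj (z m' g)‖ ≤ w m m')
    (eps : ι → ℂ) (heps : ∀ m, ‖eps m‖ ≤ 1) :
    ∑ g ∈ D, ‖∑ m ∈ P, eps m * z m g‖ ^ 2 ≤ ∑ m ∈ P, ∑ m' ∈ P, w m m' := by
  have e : ((∑ g ∈ D, ‖∑ m ∈ P, eps m * z m g‖ ^ 2 : ℝ) : ℂ) =
      ∑ m ∈ P, ∑ m' ∈ P, eps m * conj (eps m') * ∑ g ∈ D, z m g * conj (z m' g) := by
    push_cast
    have e1 : ∀ g, (‖∑ m ∈ P, eps m * z m g‖ : ℂ) ^ 2 =
        ∑ m ∈ P, ∑ m' ∈ P, eps m * conj (eps m') * (z m g * conj (z m' g)) := by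
      intro g
      rw [← Complex.mul_conj', map_sum, Finset.sum_mul_sum]
      refine Finset.sum_congr rfl fun m _ => Finset.sum_congr rfl fun m' _ => ?_
      rw [map_mul]
      ring
    rw [Finset.sum_congr rfl fun g _ => e1 g, Finset.sum_comm]
    refine Finset.sum_congr rfl fun m _ => ?_
    rw [Finset.sum_comm]
    refine Finset.sum_congr rfl fun m' _ => ?_
    rw [Finset.mul_sum]
  have h0 : 0 ≤ ∑ g ∈ D, ‖∑ m ∈ P, eps m * z m g‖ ^ 2 := Finset.sum_nonneg fun _ _ => sq_nonneg _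
  have h1 : ∑ g ∈ D, ‖∑ m ∈ P, eps m * z m g‖ ^ 2 =
      ‖((∑ g ∈ D, ‖∑ m ∈ P, eps m * z m g‖ ^ 2 : ℝ) : ℂ)‖ := by
    rw [Complex.norm_real, Real.norm_of_nonneg h0]
  rw [h1, e]
  refine (norm_sum_le _ _).trans (Finset.sum_le_sum fun m hm => ?_)
  refine (norm_sum_le _ _).trans (Finset.sum_le_sum fun m' hm' => ?_)
  rw [norm_mul, norm_mul, RCLike.norm_conj]
  refine le_trans ?_ (hz m m' hm hm')
  refine mul_le_of_le_one_left (norm_nonneg _) ?_
  exact mul_le_one₀ (heps m) (norm_nonneg _) (heps m')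

end Pool.Agent.U120.DK
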