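import Pool.Agent.U120.DK.Bil
import Pool.Agent.Y710.XK.EQ
import Pool.Agent.Y688.XK.BOX

/-!
# The joint law of the cubic symbols of tuples of primes from arbitrary sets
-/

set_option autoImplicit false

open scoped Classical ComplexConjugate

namespace Pool.Agent.U120.DK

open Finset
open Pool.Agent.Y692.QS (Ei w nr toC)
open Pool.Agent.Y715.T.Rec (cs)
open Pool.Agent.Y715.T.RecG (Pq)
open Pool.Agent.Y699.E
open Pool.Agent.Y703.XK (HB prs)
open Pool.Agent.Y688.XK (cs_symm)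

/-- the saving -/
noncomputable def kap (X s : ℕ) : ℝ := 41 * √(X : ℝ) / (s : ℝ) ^ ((3 : ℝ) / 4)

lemma kap_nonneg (X s : ℕ) : 0 ≤ kap X s := by
  unfold kap
  positivity

lemma chi_self (π : Ei) : chi π π = 0 := chi_zero_iff.2 dvd_rfl

lemma chi_ne {π ρ : Ei} (h : Pq π) (h' : Pq ρ) (hne : π ≠ ρ) : chi π ρ = ez (cs π ρ) :=
  chi_of fun hd => hne (eq_of_dvd h h' hd)

theorem bil1 {X s : ℕ} (hX : 1 ≤ X) (hs : 1 ≤ s) {P Q : Finset Ei} (hP : ∀ p ∈ P, Pq p ∧ nrm p ≤ X)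
    (hQ : ∀ p ∈ Q, Pq p ∧ nrm p ≤ X) (hPs : P.card ≤ s) (hQs : Q.card ≤ s)
    (c d : Ei → ℂ) (hc : ∀ p, ‖c p‖ ≤ 1) (hd : ∀ q, ‖d q‖ ≤ 1) :
    ‖∑ x ∈ P, ∑ y ∈ Q, c x * d y * ez (cs x y)‖ ≤ kap X s * ((s : ℝ) * s) := by
  have hXr : (1 : ℝ) ≤ X := by exact_mod_cast hX
  have hsr : (1 : ℝ) ≤ s := by exact_mod_cast hs
  have hPr : (P.card : ℝ) ≤ s := by exact_mod_cast hPs
  have hQr : (Q.card : ℝ) ≤ s := by exact_mod_cast hQs
  set Y : ℝ := √(X : ℝ) with hY
  set Z : ℝ := (s : ℝ) ^ ((1 : ℝ) / 4) with hZ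
  have hY1 : 1 ≤ Y := Real.one_le_sqrt.2 hXr
  have hY2 : Y ^ 2 = X := Real.sq_sqrt (by linarith)
  have hZ1 : 1 ≤ Z := Real.one_le_rpow hsr (by norm_num)
  have hZ0 : 0 < Z := by linarith
  have hZ4 : Z ^ 4 = s := by
    rw [hZ, ← Real.rpow_natCast, ← Real.rpow_mul (by linarith)]
    norm_num
  have hZ3 : Z ^ 3 = (s : ℝ) ^ ((3 : ℝ) / 4) := by
    rw [hZ, ← Real.rpow_natCast, ← Real.rpow_mul (by linarith)]
    norm_num
  have h1 : ∑ x ∈ P, ∑ y ∈ Q, c x * d y * ez (cs x y) =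
      ∑ x ∈ P, ∑ y ∈ Q, c x * d y * chi x y +
        ∑ x ∈ P, (if x ∈ Q then c x * d x * ez (cs x x) else 0) := by
    rw [← Finset.sum_add_distrib]
    refine Finset.sum_congr rfl fun x hx => ?_
    have h2 : (if x ∈ Q then c x * d x * ez (cs x x) else 0) =
        ∑ y ∈ Q, if y = x then c x * d y * ez (cs x y) else 0 := by
      rw [Finset.sum_ite_eq' Q x]
    rw [h2, ← Finset.sum_add_distrib]
    refine Finset.sum_congr rfl fun y hy => ?_
    by_cases hxy : y = x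
    · subst hxy
      rw [if_pos rfl, chi_self, mul_zero, zero_add]
    · rw [if_neg hxy, add_zero, chi_ne (hP x hx).1 (hQ y hy).1 (Ne.symm hxy)]
  have h2 : ‖∑ x ∈ P, ∑ y ∈ Q, c x * d y * chi x y‖ ≤ 40 * (Y * Z ^ 5) := by
    have h3 := bil4 hX hP hQ c d hc hd
    have h4 : 2425856 * ((X : ℝ) ^ 2 * ((P.card : ℝ) ^ 3 * (Q.card : ℝ) ^ 2)) ≤
        (40 * (Y * Z ^ 5)) ^ 4 := by
      have h5 : (P.card : ℝ) ^ 3 * (Q.card : ℝ) ^ 2 ≤ (s : ℝ) ^ 3 * (s : ℝ) ^ 2 := by gcongr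
      calc 2425856 * ((X : ℝ) ^ 2 * ((P.card : ℝ) ^ 3 * (Q.card : ℝ) ^ 2)) ≤
          2425856 * ((X : ℝ) ^ 2 * ((s : ℝ) ^ 3 * (s : ℝ) ^ 2)) := by gcongr
        _ = 2425856 * (Y ^ 4 * Z ^ 20) := by
            rw [← hY2, ← hZ4]
            ring
        _ ≤ 2560000 * (Y ^ 4 * Z ^ 20) := by
            have : 0 ≤ Y ^ 4 * Z ^ 20 := by positivity
            linarith
        _ = (40 * (Y * Z ^ 5)) ^ 4 := by ring
    exact le_of_pow_le_pow_left₀ (by norm_num) (by positivity) (h3.trans h4)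
  have h3 : ‖∑ x ∈ P, (if x ∈ Q then c x * d x * ez (cs x x) else 0)‖ ≤ s := by
    refine (norm_sum_le _ _).trans ?_
    have h4 : ∑ x ∈ P, ‖(if x ∈ Q then c x * d x * ez (cs x x) else 0)‖ ≤ ∑ x ∈ P, (1 : ℝ) := by
      refine Finset.sum_le_sum fun x _ => ?_
      split_ifs
      · rw [norm_mul, norm_mul, norm_ez, mul_one]
        exact mul_le_one₀ (hc x) (norm_nonneg _) (hd x)
      · simp
    refine h4.trans ?_
    rw [Finset.sum_const, nsmul_eq_mul, mul_one]
    exact hPr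
  have h4 : kap X s * ((s : ℝ) * s) = 41 * (Y * Z ^ 5) := by
    unfold kap
    rw [← hY, ← hZ3]
    have e : (s : ℝ) * s = Z ^ 3 * Z ^ 5 := by
      rw [← hZ4]
      ring
    rw [e]
    field_simp
  rw [h4, h1]
  have h5 : (s : ℝ) ≤ Y * Z ^ 5 := by
    rw [← hZ4]
    have h6 : Z ^ 4 ≤ Z ^ 5 := pow_le_pow_right₀ hZ1 (by norm_num)
    have h7 : Z ^ 5 ≤ Y * Z ^ 5 := le_mul_of_one_le_left (by positivity) hY1
    exact h6.trans h7
  calc ‖∑ x ∈ P, ∑ y ∈ Q, c x * d y * chi x y +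
        ∑ x ∈ P, (if x ∈ Q then c x * d x * ez (cs x x) else 0)‖
      ≤ 40 * (Y * Z ^ 5) + s := (norm_add_le _ _).trans (add_le_add h2 h3)
    _ ≤ 41 * (Y * Z ^ 5) := by linarith

/-- **the bilinear estimate for overlapping sets** -/
theorem bil2 {X s : ℕ} (hX : 1 ≤ X) (hs : 1 ≤ s) {P Q : Finset Ei} (hP : ∀ p ∈ P, Pq p ∧ nrm p ≤ X)
    (hQ : ∀ p ∈ Q, Pq p ∧ nrm p ≤ X) (hPs : P.card ≤ s) (hQs : Q.card ≤ s) {a : ZMod 3} (ha : a ≠ 0)
    (c d : Ei → ℂ) (hc : ∀ p, ‖c p‖ ≤ 1) (hd : ∀ q, ‖d q‖ ≤ 1) :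
    ‖∑ x ∈ P, ∑ y ∈ Q, c x * d y * ez (a * cs x y)‖ ≤ kap X s * ((s : ℝ) * s) := by
  have h3 : a = 1 ∨ a = -1 := by
    revert a
    decide
  rcases h3 with h | h
  · subst h
    simp only [one_mul]
    exact bil1 hX hs hP hQ hPs hQs c d hc hd
  · subst h
    have h1 := bil1 hX hs hP hQ hPs hQs (fun x => conj (c x)) (fun x => conj (d x))
      (fun x => by rw [RCLike.norm_conj]; exact hc x) (fun x => by rw [RCLike.norm_conj]; exact hd x)
    have e1 : ∑ π ∈ P, ∑ ρ ∈ Q, c π * d ρ * ez (-1 * cs π ρ) =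
        conj (∑ π ∈ P, ∑ ρ ∈ Q, conj (c π) * conj (d ρ) * ez (cs π ρ)) := by
      rw [map_sum]
      refine sum_congr rfl fun π _ => ?_
      rw [map_sum]
      refine sum_congr rfl fun ρ _ => ?_
      rw [map_mul, map_mul, Complex.conj_conj, Complex.conj_conj, conj_ez, neg_one_mul]
    rw [e1, RCLike.norm_conj]
    exact h1

theorem hb {ι : Type} {X s : ℕ} (hX : 1 ≤ X) (hs : 1 ≤ s) (C : ι → Finset Ei)
    (hC : ∀ i, ∀ p ∈ C i, Pq p ∧ nrm p ≤ X) (hCs : ∀ i, (C i).card ≤ s) :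
    HB C (fun _ => s) (kap X s) :=
  fun i l _ _ c d ha hc hd => bil2 hX hs (hC i) (hC l) (hCs i) (hCs l) ha c d hc hd

section tuple
variable {ι : Type} [Fintype ι] [LinearOrder ι]

/-- the number of the pairs -/
lemma prs_card (k : ℕ) : (prs (Fin k)).card = k * (k - 1) / 2 := by
  have h1 : (univ : Finset (Fin k × Fin k)) =
      (prs (Fin k) ∪ (prs (Fin k)).image Prod.swap) ∪ univ.diag := by
    ext ⟨i, j⟩
    unfold prs
    simp only [Finset.mem_univ, Finset.mem_union, Finset.mem_filter, Finset.mem_image, true_and,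
      Finset.mem_diag, true_iff, Prod.exists, Prod.swap_prod_mk, Prod.mk.injEq]
    rcases lt_trichotomy i j with h | h | h
    · exact Or.inl (Or.inl h)
    · exact Or.inr h
    · exact Or.inl (Or.inr ⟨j, i, h, rfl, rfl⟩)
  have h2 : Disjoint (prs (Fin k)) ((prs (Fin k)).image Prod.swap) := by
    rw [Finset.disjoint_left]
    intro e he he'
    obtain ⟨e', h3, rfl⟩ := Finset.mem_image.1 he'
    have h4 := (Finset.mem_filter.1 he).2
    have h5 := (Finset.mem_filter.1 h3).2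
    exact lt_asymm h4 h5
  have h3 : Disjoint (prs (Fin k) ∪ (prs (Fin k)).image Prod.swap) univ.diag := by
    rw [Finset.disjoint_left]
    intro e he he'
    have h4 := (Finset.mem_diag.1 he').2
    rcases Finset.mem_union.1 he with h | h
    · exact absurd h4 (Finset.mem_filter.1 h).2.ne
    · obtain ⟨e', h5, rfl⟩ := Finset.mem_image.1 h
      exact absurd h4.symm (Finset.mem_filter.1 h5).2.ne
  have h4 := congrArg Finset.card h1
  rw [Finset.card_union_of_disjoint h3, Finset.card_union_of_disjoint h2,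
    Finset.card_image_of_injective _ Prod.swap_injective, Finset.diag_card, Finset.card_univ,
    Finset.card_univ, Fintype.card_prod, Fintype.card_fin] at h4
  have h5 : k * (k - 1) = 2 * (prs (Fin k)).card := by
    rw [Nat.mul_sub, mul_one]
    omega
  omega

/-- **equidistribution of the symbols of the tuples** -/
theorem equi {X s : ℕ} (hX : 1 ≤ X) (hs : 1 ≤ s) (C : ι → Finset Ei)
    (hC : ∀ i, ∀ p ∈ C i, Pq p ∧ nrm p ≤ X) (hCs : ∀ i, (C i).card ≤ s) (Q : (prs ι → ZMod 3) → Prop) :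
    |(((Fintype.piFinset C).filter fun p => Q fun e => cs (p e.1.1) (p e.1.2)).card : ℝ) -
      ((univ.filter Q).card : ℝ) / 3 ^ (prs ι).card * ∏ j, ((C j).card : ℝ)| ≤
      3 ^ (prs ι).card * (kap X s * (s : ℝ) ^ Fintype.card ι) := by
  have h := Pool.Agent.Y710.XK.t_EQ ι C (fun _ => s) (kap X s) (kap_nonneg X s) hCs
    (hb hX hs C hC hCs) Q
  simp only [Finset.prod_const, Finset.card_univ] at h
  exact h

end tuple

/-- the number of the tuples which are not injective -/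
theorem noninj {ι : Type} [Fintype ι] [DecidableEq ι] (C : ι → Finset Ei) {s : ℕ}
    (hCs : ∀ i, (C i).card ≤ s) :
    (((Fintype.piFinset C).filter fun p => ¬ Function.Injective p).card : ℝ) ≤
      (Fintype.card ι : ℝ) ^ 2 * (s : ℝ) ^ (Fintype.card ι - 1) := by
  have h1 : ((Fintype.piFinset C).filter fun p => ¬ Function.Injective p) ⊆
      (univ : Finset ι).offDiag.biUnion fun e => (Fintype.piFinset C).filter fun p =>
        p e.1 = p e.2 := by
    intro p hp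
    rw [Finset.mem_filter] at hp
    obtain ⟨h2, h3⟩ := hp
    simp only [Function.Injective] at h3
    push Not at h3
    obtain ⟨i, j, h4, h5⟩ := h3
    rw [Finset.mem_biUnion]
    exact ⟨(i, j), Finset.mem_offDiag.2 ⟨Finset.mem_univ _, Finset.mem_univ _, h5⟩,
      Finset.mem_filter.2 ⟨h2, h4⟩⟩
  have h2 : ∀ e ∈ (univ : Finset ι).offDiag, ((Fintype.piFinset C).filter fun p =>
      p e.1 = p e.2).card ≤ s ^ (Fintype.card ι - 1) := by
    rintro ⟨i, j⟩ he
    have hij : i ≠ j := (Finset.mem_offDiag.1 he).2.2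
    have h3 : ((Fintype.piFinset C).filter fun p => p i = p j).card ≤
        (Fintype.piFinset fun l : {l : ι // l ≠ j} => C l.1).card := by
      refine Finset.card_le_card_of_injOn (fun p (l : {l : ι // l ≠ j}) => p l.1) ?_ ?_
      · intro p hp
        rw [Finset.mem_coe, Finset.mem_filter, Fintype.mem_piFinset] at hp
        rw [Finset.mem_coe, Fintype.mem_piFinset]
        exact fun l => hp.1 l.1
      · intro p hp q hq hpq
        rw [Finset.mem_coe, Finset.mem_filter] at hp hq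
        funext l
        by_cases hl : l = j
        · rw [hl, ← hp.2, ← hq.2]
          exact congrFun hpq ⟨i, hij⟩
        · exact congrFun hpq ⟨l, hl⟩
    refine h3.trans ?_
    rw [Fintype.card_piFinset]
    refine (Finset.prod_le_prod' fun l _ => hCs l.1).trans (le_of_eq ?_)
    rw [Finset.prod_const, Finset.card_univ]
    congr 1
    rw [Fintype.card_subtype_compl, Fintype.card_subtype_eq]
  have h3 : ((Fintype.piFinset C).filter fun p => ¬ Function.Injective p).card ≤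
      Fintype.card ι ^ 2 * s ^ (Fintype.card ι - 1) := by
    refine (Finset.card_le_card h1).trans (Finset.card_biUnion_le.trans ?_)
    refine (Finset.sum_le_sum h2).trans ?_
    rw [Finset.sum_const, smul_eq_mul]
    refine Nat.mul_le_mul_right _ ?_
    rw [Finset.offDiag_card, Finset.card_univ, sq]
    exact Nat.sub_le _ _
  exact_mod_cast h3

end Pool.Agent.U120.DK
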