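import Pool.Agent.U120.DK.Eq

/-!
# The law of every property of the cubic symbols and of the residues of the norms
-/

set_option autoImplicit false

open scoped Classical

namespace Pool.Agent.U120.DK

open Finset
open Pool.Agent.Y692.QS (Ei w nr toC)
open Pool.Agent.Y715.T.Rec (cs)
open Pool.Agent.Y715.T.RecG (Pq)
open Pool.Agent.Y699.E
open Pool.Agent.Y703.XK (HB prs ext)
open Pool.Agent.Y688.XK (cs_symm)

abbrev F := ZMod 3

/-- the residue of the norm: `nrm π = 1 + 3 lam π` modulo `9` -/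
noncomputable def lam (π : Ei) : F := (((nrm π - 1) / 3 : ℕ) : F)

section ext
variable {ι : Type} [Fintype ι] [LinearOrder ι]

lemma mem_prs {k l : ι} : (k, l) ∈ prs ι ↔ k < l := by
  unfold prs
  rw [Finset.mem_filter]
  exact ⟨fun h => h.2, fun h => ⟨Finset.mem_univ _, h⟩⟩

lemma ext_pos (α : prs ι → F) {k l : ι} (h : (k, l) ∈ prs ι) : ext α k l = α ⟨(k, l), h⟩ := by
  unfold Pool.Agent.Y703.XK.ext
  rw [dif_pos h]

lemma ext_neg (α : prs ι → F) {k l : ι} (h : (l, k) ∈ prs ι) : ext α k l = α ⟨(l, k), h⟩ := by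
  unfold Pool.Agent.Y703.XK.ext
  have h1 : ¬ (k, l) ∈ prs ι := fun h2 => lt_asymm (mem_prs.1 h) (mem_prs.1 h2)
  rw [dif_neg h1, dif_pos h]

lemma ext_self (α : prs ι → F) (k : ι) : ext α k k = 0 := by
  unfold Pool.Agent.Y703.XK.ext
  have h1 : ¬ (k, k) ∈ prs ι := fun h2 => lt_irrefl _ (mem_prs.1 h2)
  rw [dif_neg h1, dif_neg h1]

lemma ext_symm (α : prs ι → F) (k l : ι) : ext α k l = ext α l k := by
  rcases lt_trichotomy k l with h | h | h
  · rw [ext_pos α (mem_prs.2 h), ext_neg α (mem_prs.2 h)]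
  · rw [h]
  · rw [ext_neg α (mem_prs.2 h), ext_pos α (mem_prs.2 h)]

/-- the symmetric matrices with zero diagonal and the symbols -/
theorem card_sym (Ψ : (ι → ι → F) → Prop) :
    Nat.card {a : Matrix ι ι F // a.IsSymm ∧ (∀ i, a i i = 0) ∧ Ψ a} =
      Nat.card {α : prs ι → F // Ψ (ext α)} := by
  have key : ∀ a : Matrix ι ι F, a.IsSymm → (∀ i, a i i = 0) →
      (ext fun e : prs ι => a e.1.1 e.1.2) = a := by
    intro a h1 h2
    funext k l
    rcases lt_trichotomy k l with h | h | h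
    · rw [ext_pos _ (mem_prs.2 h)]
    · rw [h, ext_self, h2]
    · rw [ext_neg _ (mem_prs.2 h)]
      exact h1.apply k l
  refine Nat.card_congr
    { toFun := fun a => ⟨fun e => a.1 e.1.1 e.1.2, by rw [key a.1 a.2.1 a.2.2.1]; exact a.2.2.2⟩
      invFun := fun α => ⟨ext α.1, ?_, fun i => ext_self _ _, α.2⟩
      left_inv := ?_
      right_inv := ?_ }
  · exact Matrix.IsSymm.ext fun i j => ext_symm α.1 _ _
  · intro a
    exact Subtype.ext (key a.1 a.2.1 a.2.2.1)
  · intro α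
    refine Subtype.ext (funext fun e => ?_)
    exact ext_pos α.1 e.2

/-- the matrix of the symbols -/
noncomputable def sy (p : ι → Ei) : ι → ι → F := fun i l => if i = l then 0 else cs (p i) (p l)

lemma sy_ext {p : ι → Ei} (hp : ∀ i, Pq (p i)) :
    (ext fun e : prs ι => cs (p e.1.1) (p e.1.2)) = sy p := by
  funext k l
  unfold sy
  rcases lt_trichotomy k l with h | h | h
  · rw [ext_pos _ (mem_prs.2 h), if_neg h.ne]
  · rw [h, ext_self, if_pos rfl]
  · rw [ext_neg _ (mem_prs.2 h), if_neg h.ne']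
    exact cs_symm (hp l) (hp k)

/-- the probability of a property of the symbols -/
noncomputable def PF (Φ : (ι → F) → (ι → ι → F) → Prop) (t : ι → F) : ℝ :=
  ((univ.filter fun α : prs ι → F => Φ t (ext α)).card : ℝ) / 3 ^ (prs ι).card

lemma PF_bd (Φ : (ι → F) → (ι → ι → F) → Prop) (t : ι → F) : 0 ≤ PF Φ t ∧ PF Φ t ≤ 1 := by
  unfold PF
  refine ⟨by positivity, ?_⟩
  rw [div_le_one (by positivity)]
  have h1 : (univ.filter fun α : prs ι → F => Φ t (ext α)).card ≤ 3 ^ (prs ι).card := by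
    refine (Finset.card_le_univ _).trans (le_of_eq ?_)
    rw [Fintype.card_fun, ZMod.card, Fintype.card_coe]
  exact_mod_cast h1

/-- the deviation of a tuple -/
noncomputable def dv (Φ : (ι → F) → (ι → ι → F) → Prop) (p : ι → Ei) : ℝ :=
  (if Φ (fun i => lam (p i)) (sy p) then 1 else 0) - PF Φ fun i => lam (p i)

lemma dv_bd (Φ : (ι → F) → (ι → ι → F) → Prop) (p : ι → Ei) : |dv Φ p| ≤ 1 := by
  unfold dv
  obtain ⟨h1, h2⟩ := PF_bd Φ fun i => lam (p i)
  rw [abs_le]
  split_ifs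
  · exact ⟨by linarith, by linarith⟩
  · exact ⟨by linarith, by linarith⟩

/-- **all the tuples, any property of the symbols** -/
theorem dv_sum {X s : ℕ} (hX : 1 ≤ X) (hs : 1 ≤ s) (C : ι → Finset Ei)
    (hS : ∀ i, ∀ p ∈ C i, Pq p ∧ nrm p ≤ X) (hCs : ∀ i, (C i).card ≤ s)
    (Φ : (ι → F) → (ι → ι → F) → Prop) :
    |∑ p ∈ Fintype.piFinset C, dv Φ p| ≤
      3 ^ Fintype.card ι * (3 ^ (prs ι).card * (kap X s * (s : ℝ) ^ Fintype.card ι)) := by
  have h1 : ∑ p ∈ Fintype.piFinset C, dv Φ p =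
      ∑ t : ι → F, ∑ p ∈ Fintype.piFinset fun i => (C i).filter fun q => lam q = t i,
        dv Φ p := by
    rw [← Finset.sum_fiberwise_of_maps_to (g := fun (p : ι → Ei) i => lam (p i))
      (t := (univ : Finset (ι → F))) (fun _ _ => Finset.mem_univ _)]
    refine Finset.sum_congr rfl fun t _ => Finset.sum_congr ?_ fun _ _ => rfl
    ext p
    simp only [Finset.mem_filter, Fintype.mem_piFinset]
    constructor
    · rintro ⟨h2, h3⟩ i
      exact ⟨h2 i, congrFun h3 i⟩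
    · intro h2
      exact ⟨fun i => (h2 i).1, funext fun i => (h2 i).2⟩
  rw [h1]
  refine (Finset.abs_sum_le_sum_abs _ _).trans ?_
  have h2 : ∀ t : ι → F,
      |∑ p ∈ Fintype.piFinset fun i => (C i).filter fun q => lam q = t i, dv Φ p| ≤
        3 ^ (prs ι).card * (kap X s * (s : ℝ) ^ Fintype.card ι) := by
    intro t
    have h3 := equi hX hs (fun i => (C i).filter fun q => lam q = t i)
      (fun i p hp => hS i p (Finset.mem_filter.1 hp).1)
      (fun i => (Finset.card_filter_le _ _).trans (hCs i))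
      (fun α => Φ t (ext α))
    refine (le_of_eq ?_).trans h3
    congr 1
    have e1 : ∀ p ∈ Fintype.piFinset fun i => (C i).filter fun q => lam q = t i,
        dv Φ p = (if Φ t (ext fun e : prs ι => cs (p e.1.1) (p e.1.2)) then 1 else 0) - PF Φ t := by
      intro p hp
      rw [Fintype.mem_piFinset] at hp
      have e2 : (fun i => lam (p i)) = t := funext fun i => (Finset.mem_filter.1 (hp i)).2
      unfold dv
      rw [e2, sy_ext fun i => (hS i _ (Finset.mem_filter.1 (hp i)).1).1]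
    rw [Finset.sum_congr rfl e1, Finset.sum_sub_distrib, Finset.sum_boole, Finset.sum_const,
      nsmul_eq_mul, Fintype.card_piFinset]
    unfold PF
    push_cast
    ring
  refine (Finset.sum_le_sum fun t _ => h2 t).trans ?_
  rw [Finset.sum_const, Finset.card_univ, nsmul_eq_mul, Fintype.card_fun, ZMod.card]
  push_cast
  exact le_rfl

end ext

/-- the error -/
noncomputable def er (k X s : ℕ) : ℝ :=
  42 * 3 ^ (k * (k + 1) / 2) * √(X : ℝ) * (s : ℝ) ^ k / (s : ℝ) ^ ((3 : ℝ) / 4)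

lemma sq_le_three (k : ℕ) : k ^ 2 ≤ 3 ^ k := by
  induction k with
  | zero => norm_num
  | succ n ih =>
    rcases Nat.lt_or_ge n 2 with h | h
    · interval_cases n <;> norm_num
    · rw [pow_succ 3 n]
      nlinarith

lemma tri_split (k : ℕ) : k + k * (k - 1) / 2 = k * (k + 1) / 2 := by
  rcases Nat.eq_zero_or_pos k with h | h
  · subst h
    rfl
  · obtain ⟨n, rfl⟩ : ∃ n, k = n + 1 := ⟨k - 1, by omega⟩
    have h1 : (n + 1) * (n + 1 - 1) = (n + 1) * n := by rw [Nat.add_sub_cancel]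
    have h2 : (n + 1) * (n + 1 + 1) = (n + 1) * n + 2 * (n + 1) := by ring
    rw [h1, h2]
    omega

theorem er_le {k X s : ℕ} (hk : 1 ≤ k) (hX : 1 ≤ X) (hs : 1 ≤ s) :
    3 ^ k * (3 ^ (k * (k - 1) / 2) * (kap X s * (s : ℝ) ^ k)) + (k : ℝ) ^ 2 * (s : ℝ) ^ (k - 1) ≤
      er k X s := by
  have hXr : (1 : ℝ) ≤ X := by exact_mod_cast hX
  have hsr : (1 : ℝ) ≤ s := by exact_mod_cast hs
  have hs0 : (0 : ℝ) < s := by linarith
  set Y : ℝ := √(X : ℝ) with hY
  have hY1 : 1 ≤ Y := Real.one_le_sqrt.2 hXr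
  set Z : ℝ := (s : ℝ) ^ ((3 : ℝ) / 4) with hZ
  have hZ1 : 1 ≤ Z := Real.one_le_rpow hsr (by norm_num)
  have hZ0 : 0 < Z := by linarith
  have hZs : Z ≤ s := by
    calc Z ≤ (s : ℝ) ^ (1 : ℝ) := Real.rpow_le_rpow_of_exponent_le hsr (by norm_num)
      _ = s := Real.rpow_one _
  set A : ℝ := 3 ^ (k * (k + 1) / 2) with hA
  have hA1 : (3 : ℝ) ^ k * 3 ^ (k * (k - 1) / 2) = A := by
    rw [← pow_add, tri_split]
  have hk2 : (k : ℝ) ^ 2 ≤ A := by
    have h1 : (k : ℝ) ^ 2 ≤ 3 ^ k := by exact_mod_cast sq_le_three k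
    have h2 : (1 : ℝ) ≤ 3 ^ (k * (k - 1) / 2) := one_le_pow₀ (by norm_num)
    have h3 : (0 : ℝ) < 3 ^ k := by positivity
    rw [← hA1]
    nlinarith
  have h1 : (k : ℝ) ^ 2 * (s : ℝ) ^ (k - 1) ≤ A * (Y * (s : ℝ) ^ k / Z) := by
    have h2 : (s : ℝ) ^ (k - 1) ≤ Y * (s : ℝ) ^ k / Z := by
      rw [le_div_iff₀ hZ0]
      have h3 : (s : ℝ) ^ k = (s : ℝ) ^ (k - 1) * s := by
        rw [← pow_succ]
        congr 1
        omega
      rw [h3]
      have h4 : (0 : ℝ) < (s : ℝ) ^ (k - 1) := by positivity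
      calc (s : ℝ) ^ (k - 1) * Z ≤ (s : ℝ) ^ (k - 1) * s := mul_le_mul_of_nonneg_left hZs h4.le
        _ ≤ Y * ((s : ℝ) ^ (k - 1) * s) := le_mul_of_one_le_left (by positivity) hY1
    exact mul_le_mul hk2 h2 (by positivity) (by positivity)
  have h2 : 3 ^ k * (3 ^ (k * (k - 1) / 2) * (kap X s * (s : ℝ) ^ k)) =
      41 * (A * (Y * (s : ℝ) ^ k / Z)) := by
    unfold kap
    rw [← hY, ← hZ, ← hA1]
    ring
  have h3 : er k X s = 42 * (A * (Y * (s : ℝ) ^ k / Z)) := by
    unfold er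
    rw [← hY, ← hZ, ← hA]
    ring
  rw [h2, h3]
  linarith

/-- **the law of a property of the symbols, for boxes** -/
theorem box {k X s : ℕ} (hk : 1 ≤ k) (hX : 1 ≤ X) (hs : 1 ≤ s) (C : Fin k → Finset Ei)
    (hC : ∀ i, ∀ p ∈ C i, Pq p ∧ nrm p ≤ X) (hCs : ∀ i, (C i).card ≤ s)
    (Φ : (Fin k → F) → (Fin k → Fin k → F) → Prop) :
    |∑ p ∈ (Fintype.piFinset C).filter Function.Injective, dv Φ p| ≤ er k X s := by
  have h4 := dv_sum hX hs C hC hCs Φ
  rw [Fintype.card_fin, prs_card] at h4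
  have h3 : ∑ p ∈ (Fintype.piFinset C).filter Function.Injective, dv Φ p =
      ∑ p ∈ Fintype.piFinset C, dv Φ p -
        ∑ p ∈ (Fintype.piFinset C).filter (fun p => ¬ Function.Injective p), dv Φ p := by
    rw [← Finset.sum_filter_add_sum_filter_not (Fintype.piFinset C)
      Function.Injective, add_sub_cancel_right]
  have h5 : |∑ p ∈ (Fintype.piFinset C).filter (fun p => ¬ Function.Injective p), dv Φ p| ≤
      (k : ℝ) ^ 2 * (s : ℝ) ^ (k - 1) := by
    refine (Finset.abs_sum_le_sum_abs _ _).trans ?_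
    refine (Finset.sum_le_sum fun p _ => dv_bd Φ p).trans ?_
    rw [Finset.sum_const, nsmul_eq_mul, mul_one]
    have h6 := noninj C hCs
    rwa [Fintype.card_fin] at h6
  rw [h3]
  exact ((abs_sub _ _).trans (add_le_add h4 h5)).trans (er_le hk hX hs)

theorem PF_eq {k : ℕ} (Φ : (Fin k → F) → (Fin k → Fin k → F) → Prop) (t : Fin k → F) :
    PF Φ t = (Nat.card {a : Matrix (Fin k) (Fin k) F // a.IsSymm ∧ (∀ i, a i i = 0) ∧ Φ t a} : ℝ) /
      3 ^ (k * (k - 1) / 2) := by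
  unfold PF
  rw [card_sym (Φ t), prs_card, Nat.card_eq_fintype_card, Fintype.card_subtype]

end Pool.Agent.U120.DK
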