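import Pool.Agent.U120.DK.Law
import Pool.Agent.Y804.XK.SYM
import Pool.Agent.Y703.XL.Stm

/-!
# The Laplacians and the symmetric matrices
-/

set_option autoImplicit false

open scoped Classical

namespace Pool.Agent.U120.DK

open Finset

/-- the number of the solutions of the weighted Laplacian system on the support of `e` -/
noncomputable def nS {k : ℕ} (e : Fin k → F) (a : Fin k → Fin k → F) : ℕ :=
  Nat.card {v : Fin k → F // (∀ i, e i = 0 → v i = 0) ∧
    ∀ j, e j ≠ 0 → ∑ i, e i * a j i * (v i - v j) = 0}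

lemma sq_one {x : F} (h : x ≠ 0) : x * x = 1 := by
  revert x
  decide

section red
variable {n : ℕ}

/-- the reduced Laplacian -/
def red (e : Fin (n + 1) → F) (a : Fin (n + 1) → Fin (n + 1) → F) : Matrix (Fin n) (Fin n) F :=
  fun i j => if i = j then -∑ l, e i.succ * e l * a i.succ l else e i.succ * e j.succ * a i.succ j.succ

/-- the inverse -/
def unred (e : Fin (n + 1) → F) (M : Matrix (Fin n) (Fin n) F) : Matrix (Fin (n + 1)) (Fin (n + 1)) F :=
  Fin.cases (Fin.cases 0 fun j => -(e 0 * e j.succ * ∑ l, M j l))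
    fun i => Fin.cases (-(e 0 * e i.succ * ∑ l, M i l))
      fun j => if i = j then 0 else e i.succ * e j.succ * M i j

lemma unred_00 (e : Fin (n + 1) → F) (M : Matrix (Fin n) (Fin n) F) : unred e M 0 0 = 0 := rfl

lemma unred_0s (e : Fin (n + 1) → F) (M : Matrix (Fin n) (Fin n) F) (j : Fin n) :
    unred e M 0 j.succ = -(e 0 * e j.succ * ∑ l, M j l) := rfl

lemma unred_s0 (e : Fin (n + 1) → F) (M : Matrix (Fin n) (Fin n) F) (i : Fin n) :
    unred e M i.succ 0 = -(e 0 * e i.succ * ∑ l, M i l) := rfl

lemma unred_ss (e : Fin (n + 1) → F) (M : Matrix (Fin n) (Fin n) F) (i j : Fin n) :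
    unred e M i.succ j.succ = if i = j then 0 else e i.succ * e j.succ * M i j := rfl

lemma unred_symm (e : Fin (n + 1) → F) {M : Matrix (Fin n) (Fin n) F} (hM : M.IsSymm) :
    (unred e M).IsSymm := by
  refine Matrix.IsSymm.ext fun i j => ?_
  refine Fin.cases ?_ (fun i' => ?_) i <;> refine Fin.cases ?_ (fun j' => ?_) j
  · rfl
  · rw [unred_0s, unred_s0]
  · rw [unred_0s, unred_s0]
  · rw [unred_ss, unred_ss]
    by_cases h : i' = j'
    · rw [if_pos h, if_pos h.symm]
    · rw [if_neg h, if_neg fun h' => h h'.symm, hM.apply]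
      ring

lemma unred_diag (e : Fin (n + 1) → F) (M : Matrix (Fin n) (Fin n) F) (i : Fin (n + 1)) :
    unred e M i i = 0 := by
  refine Fin.cases rfl (fun i' => ?_) i
  rw [unred_ss, if_pos rfl]

lemma red_symm (e : Fin (n + 1) → F) {a : Matrix (Fin (n + 1)) (Fin (n + 1)) F} (ha : a.IsSymm) :
    (red e a).IsSymm := by
  refine Matrix.IsSymm.ext fun i j => ?_
  unfold red
  by_cases h : i = j
  · rw [h]
  · rw [if_neg h, if_neg fun h' => h h'.symm, ha.apply]
    ring

lemma red_unred {e : Fin (n + 1) → F} (he : ∀ i, e i ≠ 0) (M : Matrix (Fin n) (Fin n) F) :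
    red e (unred e M) = M := by
  funext i j
  unfold red
  by_cases h : i = j
  · subst h
    rw [if_pos rfl, Fin.sum_univ_succ, unred_s0]
    have e1 : ∑ l : Fin n, e i.succ * e l.succ * unred e M i.succ l.succ =
        ∑ l, if i = l then 0 else M i l := by
      refine Finset.sum_congr rfl fun l _ => ?_
      rw [unred_ss]
      split_ifs with h1
      · rw [mul_zero]
      · have h2 := sq_one (he i.succ)
        have h3 := sq_one (he l.succ)
        linear_combination (M i l * (e l.succ * e l.succ)) * h2 + M i l * h3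
    have e2 : ∑ l, M i l = M i i + ∑ l, if i = l then 0 else M i l := by
      rw [← Finset.add_sum_erase univ _ (Finset.mem_univ i),
        ← Finset.add_sum_erase univ (fun l => if i = l then 0 else M i l) (Finset.mem_univ i),
        if_pos rfl, zero_add]
      congr 1
      refine Finset.sum_congr rfl fun l hl => ?_
      rw [if_neg (Finset.mem_erase.1 hl).1.symm]
    rw [e1]
    have h2 := sq_one (he i.succ)
    have h3 := sq_one (he 0)
    linear_combination (∑ l, M i l) * (e 0 * e 0) * h2 + (∑ l, M i l) * h3 + e2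
  · rw [if_neg h, unred_ss, if_neg h]
    have h2 := sq_one (he i.succ)
    have h3 := sq_one (he j.succ)
    linear_combination (M i j * (e j.succ * e j.succ)) * h2 + M i j * h3

lemma unred_red {e : Fin (n + 1) → F} (he : ∀ i, e i ≠ 0) {a : Matrix (Fin (n + 1)) (Fin (n + 1)) F}
    (ha : a.IsSymm) (h0 : ∀ i, a i i = 0) : unred e (red e a) = a := by
  have key : ∀ i : Fin n, ∑ l, red e a i l = -(e 0 * e i.succ * a i.succ 0) := by
    intro i
    have e2 : ∑ l, red e a i l = red e a i i + ∑ l, if i = l then 0 else red e a i l := by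
      rw [← Finset.add_sum_erase univ _ (Finset.mem_univ i),
        ← Finset.add_sum_erase univ (fun l => if i = l then 0 else red e a i l) (Finset.mem_univ i),
        if_pos rfl, zero_add]
      congr 1
      refine Finset.sum_congr rfl fun l hl => ?_
      rw [if_neg (Finset.mem_erase.1 hl).1.symm]
    have e3 : ∑ l, (if i = l then 0 else red e a i l) =
        ∑ l : Fin n, e i.succ * e l.succ * a i.succ l.succ := by
      refine Finset.sum_congr rfl fun l _ => ?_
      by_cases h1 : i = l
      · rw [if_pos h1, h1, h0, mul_zero]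
      · rw [if_neg h1]
        unfold red
        rw [if_neg h1]
    have e4 : red e a i i = -∑ l, e i.succ * e l * a i.succ l := if_pos rfl
    rw [e2, e3, e4, Fin.sum_univ_succ]
    ring
  funext i j
  refine Fin.cases ?_ (fun i' => ?_) i <;> refine Fin.cases ?_ (fun j' => ?_) j
  · rw [unred_00, h0]
  · rw [unred_0s, key, ha.apply j'.succ 0]
    have h2 := sq_one (he j'.succ)
    have h3 := sq_one (he 0)
    linear_combination (a j'.succ 0 * (e 0 * e 0)) * h2 + a j'.succ 0 * h3
  · rw [unred_s0, key]
    have h2 := sq_one (he i'.succ)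
    have h3 := sq_one (he 0)
    linear_combination (a i'.succ 0 * (e 0 * e 0)) * h2 + a i'.succ 0 * h3
  · rw [unred_ss]
    by_cases h : i' = j'
    · rw [if_pos h, h, h0]
    · rw [if_neg h]
      unfold red
      rw [if_neg h]
      have h2 := sq_one (he i'.succ)
      have h3 := sq_one (he j'.succ)
      linear_combination (a i'.succ j'.succ * (e j'.succ * e j'.succ)) * h2 + a i'.succ j'.succ * h3

/-- the equations -/
lemma red_mul {e : Fin (n + 1) → F} (a : Matrix (Fin (n + 1)) (Fin (n + 1)) F)
    (h0 : ∀ i, a i i = 0) (v : Fin (n + 1) → F) (i : Fin n) :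
    (red e a).mulVec (fun l => v l.succ - v 0) i =
      e i.succ * ∑ l, e l * a i.succ l * (v l - v i.succ) := by
  unfold Matrix.mulVec dotProduct
  have e1 : ∀ l : Fin n, red e a i l * (v l.succ - v 0) =
      (if i = l then (-∑ m, e i.succ * e m * a i.succ m) * (v i.succ - v 0) else 0) +
        e i.succ * e l.succ * a i.succ l.succ * (v l.succ - v 0) := by
    intro l
    by_cases h : i = l
    · subst h
      rw [if_pos rfl, h0, mul_zero, zero_mul, add_zero]
      unfold red
      rw [if_pos rfl]
    · rw [if_neg h, zero_add]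
      unfold red
      rw [if_neg h]
  rw [Finset.sum_congr rfl fun l _ => e1 l, Finset.sum_add_distrib, Finset.sum_ite_eq,
    if_pos (Finset.mem_univ i)]
  have e2 : ∑ l : Fin n, e i.succ * e l.succ * a i.succ l.succ * (v l.succ - v 0) =
      ∑ m, e i.succ * e m * a i.succ m * (v m - v 0) := by
    rw [Fin.sum_univ_succ (f := fun m => e i.succ * e m * a i.succ m * (v m - v 0)), sub_self,
      mul_zero, zero_add]
  rw [e2, Finset.mul_sum, neg_mul, Finset.sum_mul, ← Finset.sum_neg_distrib, ← Finset.sum_add_distrib]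
  refine Finset.sum_congr rfl fun m _ => ?_
  ring

/-- the last equation follows -/
lemma red_zero {e : Fin (n + 1) → F} (he : ∀ i, e i ≠ 0) {a : Matrix (Fin (n + 1)) (Fin (n + 1)) F}
    (ha : a.IsSymm) (v : Fin (n + 1) → F)
    (h : ∀ i : Fin n, ∑ l, e l * a i.succ l * (v l - v i.succ) = 0) :
    ∑ l, e l * a 0 l * (v l - v 0) = 0 := by
  have h1 : ∑ j, e j * ∑ l, e l * a j l * (v l - v j) = 0 := by
    have e1 : ∑ j, e j * ∑ l, e l * a j l * (v l - v j) =
        ∑ j, ∑ l, e j * e l * a j l * v l - ∑ j, ∑ l, e j * e l * a j l * v j := by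
      rw [← Finset.sum_sub_distrib]
      refine Finset.sum_congr rfl fun j _ => ?_
      rw [Finset.mul_sum, ← Finset.sum_sub_distrib]
      refine Finset.sum_congr rfl fun l _ => ?_
      ring
    rw [e1, Finset.sum_comm, sub_eq_zero]
    refine Finset.sum_congr rfl fun l _ => Finset.sum_congr rfl fun j _ => ?_
    rw [ha.apply]
    ring
  rw [Fin.sum_univ_succ, Finset.sum_eq_zero (s := univ) (f := fun i : Fin n =>
    e i.succ * ∑ l, e l * a i.succ l * (v l - v i.succ)) fun i _ => by rw [h i, mul_zero], add_zero] at h1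
  exact (mul_eq_zero.1 h1).resolve_left (he 0)

/-- **the number of the solutions** -/
theorem nS_red {e : Fin (n + 1) → F} (he : ∀ i, e i ≠ 0) {a : Matrix (Fin (n + 1)) (Fin (n + 1)) F}
    (ha : a.IsSymm) (h0 : ∀ i, a i i = 0) :
    nS e a = 3 * Nat.card {w : Fin n → F // (red e a).mulVec w = 0} := by
  have e1 : {v : Fin (n + 1) → F // (∀ i, e i = 0 → v i = 0) ∧
      ∀ j, e j ≠ 0 → ∑ i, e i * a j i * (v i - v j) = 0} ≃
      F × {w : Fin n → F // (red e a).mulVec w = 0} :=
    { toFun := fun v => (v.1 0, ⟨fun l => v.1 l.succ - v.1 0, by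
        funext i
        rw [red_mul a h0, v.2.2 i.succ (he _), mul_zero]
        rfl⟩)
      invFun := fun x => ⟨Fin.cons x.1 fun i => x.2.1 i + x.1, fun i hi => absurd hi (he i), by
        set v : Fin (n + 1) → F := Fin.cons x.1 fun i => x.2.1 i + x.1 with hv
        have hw : (fun l : Fin n => v l.succ - v 0) = x.2.1 := by
          funext l
          show x.2.1 l + x.1 - x.1 = x.2.1 l
          ring
        have h1 : ∀ i : Fin n, ∑ l, e l * a i.succ l * (v l - v i.succ) = 0 := by
          intro i
          have h2 := red_mul (e := e) a h0 v i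
          rw [hw, x.2.2] at h2
          exact (mul_eq_zero.1 h2.symm).resolve_left (he _)
        intro j _
        refine Fin.cases (red_zero he ha v h1) (fun i => h1 i) j⟩
      left_inv := by
        rintro ⟨v, hv⟩
        refine Subtype.ext (funext fun i => ?_)
        refine Fin.cases rfl (fun i' => ?_) i
        show v i'.succ - v 0 + v 0 = v i'.succ
        ring
      right_inv := by
        rintro ⟨c, w, hw⟩
        refine Prod.ext rfl (Subtype.ext (funext fun i => ?_))
        show w i + c - c = w i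
        ring }
  unfold nS
  rw [Nat.card_congr e1, Nat.card_prod, Nat.card_zmod]

/-- the number of the symmetric matrices with a given number of solutions -/
theorem card_red {e : Fin (n + 1) → F} (he : ∀ i, e i ≠ 0) (P : ℕ → Prop) :
    Nat.card {a : Matrix (Fin (n + 1)) (Fin (n + 1)) F // a.IsSymm ∧ (∀ i, a i i = 0) ∧ P (nS e a)} =
      Nat.card {M : Matrix (Fin n) (Fin n) F // M.IsSymm ∧
        P (3 * Nat.card {w : Fin n → F // M.mulVec w = 0})} := by
  refine Nat.card_congr
    { toFun := fun a => ⟨red e a.1, red_symm e a.2.1, by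
        rw [← nS_red he a.2.1 a.2.2.1]; exact a.2.2.2⟩
      invFun := fun M => ⟨unred e M.1, unred_symm e M.2.1, unred_diag e M.1, by
        rw [nS_red he (unred_symm e M.2.1) (unred_diag e M.1), red_unred he]; exact M.2.2⟩
      left_inv := fun a => Subtype.ext (unred_red he a.2.1 a.2.2.1)
      right_inv := fun M => Subtype.ext (red_unred he M.1) }

end red

/-- the proportion of the symmetric `n × n` matrices with a kernel of order `3 ^ r` -/
noncomputable def qS (n r : ℕ) : ℝ :=
  (Nat.card {M : Matrix (Fin n) (Fin n) F // M.IsSymm ∧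
    Nat.card {w : Fin n → F // M.mulVec w = 0} = 3 ^ r} : ℝ) / 3 ^ (n * (n + 1) / 2)

/-- the nonsingular matrices -/
theorem qS_zero (n : ℕ) : qS n 0 = ∏ i ∈ range ((n + 1) / 2), (1 - (1 / 3 : ℝ) ^ (2 * i + 1)) := by
  have h1 := Pool.Agent.Y804.XK.t_SYM n
  have h2 : ∀ M : Matrix (Fin n) (Fin n) F,
      (Nat.card {w : Fin n → F // M.mulVec w = 0} = 3 ^ 0 ↔ M.det ≠ 0) := by
    intro M
    rw [pow_zero, Nat.card_eq_one_iff_unique]
    constructor
    · rintro ⟨h3, -⟩ hd
      obtain ⟨v, hv, hv0⟩ := Matrix.exists_mulVec_eq_zero_iff.2 hd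
      have h4 : (⟨v, hv0⟩ : {w : Fin n → F // M.mulVec w = 0}) = ⟨0, M.mulVec_zero⟩ :=
        Subsingleton.elim _ _
      exact hv (congrArg Subtype.val h4)
    · intro hd
      refine ⟨⟨fun x y => ?_⟩, ⟨⟨0, M.mulVec_zero⟩⟩⟩
      have key : ∀ z : {w : Fin n → F // M.mulVec w = 0}, z.1 = 0 := fun z => by
        by_contra hz
        exact hd (Matrix.exists_mulVec_eq_zero_iff.1 ⟨z.1, hz, z.2⟩)
      exact Subtype.ext ((key x).trans (key y).symm)
  unfold qS
  have h3 : Nat.card {M : Matrix (Fin n) (Fin n) F // M.IsSymm ∧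
      Nat.card {w : Fin n → F // M.mulVec w = 0} = 3 ^ 0} =
      Nat.card {M : Matrix (Fin n) (Fin n) (ZMod 3) // M.IsSymm ∧ M.det ≠ 0} :=
    Nat.card_congr (Equiv.subtypeEquivRight fun M => and_congr_right fun _ => h2 M)
  rw [h3, h1]
  field_simp

end Pool.Agent.U120.DK
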