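import Pool.Agent.U120.DK.Mat
import Pool.Agent.Y31.XL.REC
import Pool.Agent.Y703.XL.Fin

/-!
# The number of the symmetric matrices of given rank over the field with three elements
-/

set_option autoImplicit false

open scoped Classical

namespace Pool.Agent.U120.DK

open Finset Module
open Pool.Agent.Y759.CX (fr fr_nonneg fr_le_one)
open Pool.Agent.Y85.XK (Sy card_symm)
open Pool.Agent.Y703.XL (nR cr)

/-- the forms and the matrices -/
theorem fr_mat (n m : ℕ) : fr (fun S : Sy (Fin n → F) => nR S = m) =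
    (Nat.card {M : Matrix (Fin n) (Fin n) F // M.IsSymm ∧
      Nat.card {w : Fin n → F // M.mulVec w = 0} = m} : ℝ) / 3 ^ (n * (n + 1) / 2) := by
  let b : Basis (Fin n) F (Fin n → F) := Pi.basisFun F (Fin n)
  have hsymm : ∀ S : (Fin n → F) →ₗ[F] (Fin n → F) →ₗ[F] F, S ∈ Sy (Fin n → F) ↔
      ((LinearMap.BilinForm.toMatrix b).toEquiv S).IsSymm := by
    intro S
    refine Iff.trans ?_ (LinearMap.BilinForm.isSymm_toMatrix_iff_isSymm (B := S) b).symm
    exact ⟨fun h => ⟨fun x y => h x y⟩, fun h x y => h.eq x y⟩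
  have hns : ∀ (S : (Fin n → F) →ₗ[F] (Fin n → F) →ₗ[F] F) (hS : S ∈ Sy (Fin n → F)),
      nR (⟨S, hS⟩ : Sy (Fin n → F)) = Nat.card {w : Fin n → F //
        ((LinearMap.BilinForm.toMatrix b).toEquiv S).mulVec w = 0} := by
    intro S hS
    unfold Pool.Agent.Y703.XL.nR
    refine Nat.card_congr (Equiv.subtypeEquivRight fun x => ?_)
    have key : ∀ i, ((LinearMap.BilinForm.toMatrix b).toEquiv S).mulVec x i = S (b i) x := by
      intro i
      have h1 : S (b i) x = ∑ l, b.repr x l * S (b i) (b l) := by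
        conv_lhs => rw [← b.sum_repr x]
        rw [map_sum]
        refine Finset.sum_congr rfl fun l _ => ?_
        rw [map_smul, smul_eq_mul]
      rw [h1]
      unfold Matrix.mulVec dotProduct
      refine Finset.sum_congr rfl fun l _ => ?_
      have h2 : (LinearMap.BilinForm.toMatrix b).toEquiv S i l = S (b i) (b l) :=
        LinearMap.BilinForm.toMatrix_apply b S i l
      refine (congrArg (fun t => t * x l) h2).trans ?_
      show S (b i) (b l) * x l = (Pi.basisFun F (Fin n)).repr x l * S (b i) (b l)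
      rw [Pi.basisFun_repr, mul_comm]
    constructor
    · intro h
      funext i
      rw [key i, Pi.zero_apply]
      rw [hS]
      exact h (b i)
    · intro h y
      have h1 : ∀ i, S x (b i) = 0 := by
        intro i
        have h2 := key i
        rw [h, Pi.zero_apply] at h2
        rw [hS]
        exact h2.symm
      show S x y = 0
      rw [← b.sum_repr y, map_sum]
      refine Finset.sum_eq_zero fun l _ => ?_
      rw [map_smul, h1, smul_zero]
  have e1 : Sy (Fin n → F) ≃ {M : Matrix (Fin n) (Fin n) F // M.IsSymm} :=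
    Equiv.subtypeEquiv (LinearMap.BilinForm.toMatrix b).toEquiv hsymm
  have e2 : {S : Sy (Fin n → F) // nR S = m} ≃ {M : Matrix (Fin n) (Fin n) F // M.IsSymm ∧
      Nat.card {w : Fin n → F // M.mulVec w = 0} = m} :=
    { toFun := fun S => ⟨(LinearMap.BilinForm.toMatrix b).toEquiv S.1.1, (hsymm _).1 S.1.2, by
        rw [← hns S.1.1 S.1.2]; exact S.2⟩
      invFun := fun M => ⟨⟨(LinearMap.BilinForm.toMatrix b).toEquiv.symm M.1, (hsymm _).2 (by
        rw [Equiv.apply_symm_apply]; exact M.2.1)⟩, by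
          rw [hns, Equiv.apply_symm_apply]; exact M.2.2⟩
      left_inv := fun S => Subtype.ext (Subtype.ext (Equiv.symm_apply_apply _ _))
      right_inv := fun M => Subtype.ext (Equiv.apply_symm_apply _ _) }
  unfold Pool.Agent.Y759.CX.fr
  rw [Nat.card_congr e1, Nat.card_congr e2, card_symm]
  push_cast
  rfl

theorem qS_fr (n r : ℕ) : qS n r = fr (fun S : Sy (Fin n → F) => nR S = 3 ^ r) := by
  rw [fr_mat]
  rfl

theorem qS_bd (n r : ℕ) : 0 ≤ qS n r ∧ qS n r ≤ 1 := by
  rw [qS_fr]
  exact ⟨fr_nonneg _, fr_le_one _⟩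

/-- the recursion -/
theorem qS_rec (n r : ℕ) :
    ((3 : ℝ) ^ (r + 1) - 1) * qS (n + 1) (r + 1) = (1 - (1 / 3 : ℝ) ^ (n + 1)) * qS n r := by
  have h := Pool.Agent.Y31.XL.REC.t_REC (Fin (n + 1) → F) (Fin n → F) r (by
    rw [Module.finrank_fintype_fun_eq_card, Module.finrank_fintype_fun_eq_card, Fintype.card_fin,
      Fintype.card_fin])
  rw [Module.finrank_fintype_fun_eq_card, Fintype.card_fin] at h
  rw [qS_fr, qS_fr]
  exact h

/-- no kernel of larger dimension -/
theorem qS_big (r : ℕ) : qS 0 (r + 1) = 0 := by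
  unfold qS
  have h1 : Nat.card {M : Matrix (Fin 0) (Fin 0) F // M.IsSymm ∧
      Nat.card {w : Fin 0 → F // M.mulVec w = 0} = 3 ^ (r + 1)} = 0 := by
    rw [Nat.card_eq_zero]
    refine Or.inl ⟨fun M => ?_⟩
    have h2 := M.2.2
    have h3 : Nat.card {w : Fin 0 → F // M.1.mulVec w = 0} ≤ 1 := by
      have h4 : Subsingleton {w : Fin 0 → F // M.1.mulVec w = 0} :=
        ⟨fun x y => Subtype.ext (Subsingleton.elim _ _)⟩
      exact Finite.card_le_one_iff_subsingleton.2 h4
    have h4 : 3 ^ 1 ≤ 3 ^ (r + 1) := Nat.pow_le_pow_right (by norm_num) (by omega)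
    omega
  rw [h1]
  simp

/-- the closed form -/
noncomputable def cf (n r : ℕ) : ℝ :=
  (∏ i ∈ range r, (1 - (1 / 3 : ℝ) ^ (n - i)) / ((3 : ℝ) ^ (i + 1) - 1)) *
    ∏ i ∈ range ((n - r + 1) / 2), (1 - (1 / 3 : ℝ) ^ (2 * i + 1))

theorem qS_cf (r : ℕ) : ∀ n : ℕ, qS n r = cf n r := by
  induction r with
  | zero =>
    intro n
    unfold cf
    rw [qS_zero, Finset.prod_range_zero, one_mul, Nat.sub_zero]
  | succ r ih =>
    intro n
    cases n with
    | zero =>
      rw [qS_big]
      unfold cf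
      rw [Finset.prod_range_succ', Nat.sub_zero, pow_zero, sub_self, zero_div, mul_zero, zero_mul]
    | succ n =>
      have h1 := qS_rec n r
      have h2 : (0 : ℝ) < (3 : ℝ) ^ (r + 1) - 1 := by
        have : (1 : ℝ) < 3 ^ (r + 1) := one_lt_pow₀ (by norm_num) (by omega)
        linarith
      have h3 : qS (n + 1) (r + 1) = (1 - (1 / 3 : ℝ) ^ (n + 1)) / ((3 : ℝ) ^ (r + 1) - 1) * qS n r := by
        field_simp
        linarith
      rw [h3, ih n]
      unfold cf
      have h4 : ∏ i ∈ range (r + 1), (1 - (1 / 3 : ℝ) ^ (n + 1 - i)) / ((3 : ℝ) ^ (i + 1) - 1) =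
          (1 - (1 / 3 : ℝ) ^ (n + 1)) / ((3 : ℝ) ^ (r + 1) - 1) *
            ∏ i ∈ range r, (1 - (1 / 3 : ℝ) ^ (n - i)) / ((3 : ℝ) ^ (i + 1) - 1) := by
        rw [Finset.prod_div_distrib, Finset.prod_div_distrib, Finset.prod_range_succ',
          Finset.prod_range_succ (fun i => (3 : ℝ) ^ (i + 1) - 1)]
        have h5 : ∀ i, n + 1 - (i + 1) = n - i := fun i => by omega
        simp only [h5, Nat.sub_zero]
        field_simp
      have h6 : n + 1 - (r + 1) = n - r := by omega
      rw [h4, h6]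
      ring

/-- the limit -/
theorem qS_lim (n r : ℕ) : |qS n r - cr r| ≤ 3 ^ r * (1 / 3 : ℝ) ^ n := by
  have h := Pool.Agent.Y703.XL.t_LIM (Fin n → F) r
  rw [Module.finrank_fintype_fun_eq_card, Fintype.card_fin] at h
  rw [qS_fr]
  exact h

end Pool.Agent.U120.DK
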